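import Pool.Agent.L7h66.TR.Final

/-! # Project TR: the asymptotic form -/

set_option autoImplicit false

namespace Pool.Agent.L7h66.TR

open Finset Filter
open Pool.Agent.L7h66.TS (Prog Simple Triangle)

lemma large (δ : ℝ) (hδ : 0 < δ) : ∀ᶠ m : ℕ in atTop, 4 ≤ Real.log (Real.log m) ∧
    6 / δ ≤ Real.log m ∧ Real.log (Real.log m) ≤ δ / 300 * Real.log m ∧ 2 ≤ m := by
  have h1 : Tendsto (fun m : ℕ => Real.log (m : ℝ)) atTop atTop :=
    Real.tendsto_log_atTop.comp tendsto_natCast_atTop_atTop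
  have h2 : Tendsto (fun m : ℕ => Real.log (Real.log (m : ℝ))) atTop atTop :=
    Real.tendsto_log_atTop.comp h1
  have h3 : ∀ᶠ x : ℝ in atTop, Real.log x ≤ δ / 300 * x := by
    have h := Real.isLittleO_log_id_atTop.bound (show 0 < δ / 300 by positivity)
    filter_upwards [h, eventually_ge_atTop 1] with x hx hx1
    have h4 : ‖Real.log x‖ = Real.log x := by
      rw [Real.norm_eq_abs, abs_of_nonneg (Real.log_nonneg hx1)]
    have h5 : ‖id x‖ = x := by
      rw [id, Real.norm_eq_abs, abs_of_nonneg (by linarith)]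
    rw [h4, h5] at hx
    exact hx
  filter_upwards [h2.eventually_ge_atTop 4, h1.eventually_ge_atTop (6 / δ), h1.eventually h3,
    eventually_ge_atTop 2] with m a b c d
  exact ⟨a, b, c, d⟩

lemma pow_small {δ : ℝ} (hδ : 0 < δ) (hδ1 : δ ≤ 1) {m k : ℕ} (hm : 2 ≤ m)
    (h1 : 4 ≤ Real.log (Real.log m)) (h2 : 6 / δ ≤ Real.log m) (hk : 1 ≤ k)
    (hk2 : (k : ℝ) ≤ δ / 300 * Real.log m / Real.log (Real.log m)) :
    (((1024 * k) ^ (224 * k) : ℕ) : ℝ) * 4 ≤ (m : ℝ) ^ δ := by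
  have hm0 : (0 : ℝ) < m := by
    have : 0 < m := by omega
    exact_mod_cast this
  have hk0 : (0 : ℝ) < k := by exact_mod_cast hk
  set L := Real.log m with hL
  set M := Real.log L with hM
  have hL6 : 6 ≤ L := by
    refine le_trans ?_ h2
    rw [le_div_iff₀ hδ]
    linarith
  have hL0 : 0 < L := by linarith
  have hM0 : 0 < M := by linarith
  have hkL : 1024 * (k : ℝ) ≤ L := by
    have e1 : δ / 300 * L / M ≤ L / 1200 := by
      rw [div_le_div_iff₀ hM0 (by norm_num)]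
      have e3 : 0 ≤ L * (M - 4) := mul_nonneg hL0.le (by linarith)
      have e4 : 0 ≤ L * (1 - δ) := mul_nonneg hL0.le (by linarith)
      nlinarith
    linarith
  have hlog : Real.log (1024 * k) ≤ M := Real.log_le_log (by positivity) hkL
  have hkM : (k : ℝ) * M ≤ δ / 300 * L := by
    rw [le_div_iff₀ hM0] at hk2
    exact hk2
  have h4 : Real.log 4 ≤ 7 / 5 := by
    have : Real.log 4 = 2 * Real.log 2 := by
      rw [show (4 : ℝ) = 2 ^ 2 by norm_num, Real.log_pow]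
      norm_num
    rw [this]
    have := Real.log_two_lt_d9
    linarith
  have hδL : 6 ≤ δ * L := by
    rw [div_le_iff₀ hδ] at h2
    linarith
  have h5 : Real.log ((((1024 * k) ^ (224 * k) : ℕ) : ℝ) * 4) ≤ δ * L := by
    rw [Real.log_mul (by positivity) (by norm_num)]
    push_cast
    rw [Real.log_pow]
    push_cast
    have e1 : 224 * (k : ℝ) * Real.log (1024 * k) ≤ 224 * k * M :=
      mul_le_mul_of_nonneg_left hlog (by positivity)
    nlinarith
  have h6 : (((1024 * k) ^ (224 * k) : ℕ) : ℝ) * 4 ≤ Real.exp (δ * L) := by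
    rw [← Real.exp_log (show (0 : ℝ) < (((1024 * k) ^ (224 * k) : ℕ) : ℝ) * 4 by positivity)]
    exact Real.exp_le_exp.2 h5
  rw [Real.rpow_def_of_pos hm0, ← hL, mul_comm L δ]
  exact h6

open Classical in
/-- the asymptotic form -/
theorem asymptotic (δ : ℝ) (hδ : 0 < δ) (hδ1 : δ ≤ 1) : ∃ m₀ : ℕ, ∀ m V S T : ℕ, m₀ ≤ m →
    2 * m ≤ V → 1 ≤ S → (S : ℝ) ≤ (m : ℝ) ^ (1 - δ) →
    ∀ (Q : Type) [Fintype Q], Fintype.card Q ≤ 2 ^ S → ∀ (Ω : Type) [Fintype Ω] (w : Ω → ℝ),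
    (∀ ω, 0 ≤ w ω) → ∑ ω, w ω = 1 → ∀ P : Ω → Prog (Fin m) (Fin V × Fin V) Q,
    (∀ E : Fin m → Fin V × Fin V, Simple E → ¬ Triangle E →
      1 / 2 ≤ ∑ ω, if (P ω).out ((P ω).st E T) then w ω else 0) →
    (∀ E : Fin m → Fin V × Fin V, Simple E → Triangle E →
      ∑ ω, (if (P ω).out ((P ω).st E T) then w ω else 0) ≤ (m : ℝ) ^ (-δ)) →
    δ / 600 * m * Real.log m / Real.log (Real.log m) ≤ T := by
  obtain ⟨m₀, hm₀⟩ := eventually_atTop.1 (large δ hδ)
  refine ⟨m₀, ?_⟩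
  intro m V S T hm hV hS hSm Q _ hQ Ω _ w hw0 hw1 P hφ hε
  obtain ⟨h1, h2, h3, h4⟩ := hm₀ m hm
  by_contra hcon
  push Not at hcon
  have hm0 : (0 : ℝ) < m := by
    have : 0 < m := by omega
    exact_mod_cast this
  have hL6 : 6 ≤ Real.log m := by
    refine le_trans ?_ h2
    rw [le_div_iff₀ hδ]
    linarith
  have hM0 : 0 < Real.log (Real.log m) := by linarith
  set x : ℝ := δ / 300 * Real.log m / Real.log (Real.log m) with hx
  have hx1 : 1 ≤ x := by
    rw [hx, le_div_iff₀ hM0, one_mul]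
    exact h3
  set k := ⌊x⌋₊ with hk
  have hk1 : 1 ≤ k := Nat.le_floor (by exact_mod_cast hx1)
  have hk2 : (k : ℝ) ≤ x := Nat.floor_le (by linarith)
  have hk3 : x < k + 1 := Nat.lt_floor_add_one x
  have hk1' : (1 : ℝ) ≤ k := by exact_mod_cast hk1
  have hTk : T ≤ k * m := by
    have e1 : (T : ℝ) < (k : ℝ) * m := by
      have e2 : δ / 600 * m * Real.log m / Real.log (Real.log m) = x / 2 * m := by
        rw [hx]; ring
      rw [e2] at hcon
      refine hcon.trans_le ?_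
      refine mul_le_mul_of_nonneg_right ?_ hm0.le
      linarith
    have e3 : T < k * m := by exact_mod_cast e1
    exact e3.le
  have hp := pow_small hδ hδ1 h4 h1 h2 hk1 hk2
  have hmm : (1024 * k) ^ (112 * k) * S ≤ m := by
    have e1 : (1024 * k) ^ (112 * k) ≤ (1024 * k) ^ (224 * k) :=
      Nat.pow_le_pow_right (by omega) (by omega)
    have e2 : (((1024 * k) ^ (112 * k) : ℕ) : ℝ) ≤ (m : ℝ) ^ δ := by
      have e3 : (((1024 * k) ^ (112 * k) : ℕ) : ℝ) ≤ (((1024 * k) ^ (224 * k) : ℕ) : ℝ) := by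
        exact_mod_cast e1
      have e4 : (0 : ℝ) ≤ (((1024 * k) ^ (224 * k) : ℕ) : ℝ) := Nat.cast_nonneg _
      linarith
    have e5 : (((1024 * k) ^ (112 * k) : ℕ) : ℝ) * S ≤ m := by
      calc (((1024 * k) ^ (112 * k) : ℕ) : ℝ) * S ≤ (m : ℝ) ^ δ * (m : ℝ) ^ (1 - δ) :=
            mul_le_mul e2 hSm (Nat.cast_nonneg _) (by positivity)
        _ = m := by
            rw [← Real.rpow_add hm0]
            simp
    exact_mod_cast e5
  have hg := general k S m V T hk1 hS hmm hV hTk Q hQ w hw0 hw1 P (1 / 2) ((m : ℝ) ^ (-δ)) (by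
    calc ((1 : ℝ) / 2) ^ S ≤ (1 / 2) ^ 1 := pow_le_pow_of_le_one (by norm_num) (by norm_num) hS
      _ = 1 / 2 := pow_one _) (by positivity) hφ hε
  have hgg : (((1024 * k) ^ (224 * k) : ℕ) : ℝ) * (m : ℝ) ^ (-δ) ≤ 1 / 4 := by
    have e1 : (0 : ℝ) < (m : ℝ) ^ (-δ) := by positivity
    have e2 : (m : ℝ) ^ δ * (m : ℝ) ^ (-δ) = 1 := by
      rw [← Real.rpow_add hm0]
      simp
    have e3 := mul_le_mul_of_nonneg_right hp e1.le
    rw [e2] at e3
    linarith
  linarith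

end Pool.Agent.L7h66.TR
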