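import Pool.Agent.L7h66.TR.Rect

/-! # Project TR: counting with collisions -/

set_option autoImplicit false

namespace Pool.Agent.L7h66.TR

open Finset Pool.Agent.L7h66.TS

section
variable {n : ℕ} {D : Type} [Fintype D] [DecidableEq D]

/-- the collisions between the parts `A` and `B` -/
lemma sum_occ_mul (A B : Finset (Fin n)) (X : Finset ({i // i ∈ A} → D)) (Y : Finset ({i // i ∈ B} → D))
    (o : ({i // i ∉ A} → D) × ({i // i ∉ B} → D)) :
    ∑ d, occ X d * occ Y d ≤ ∑ p ∈ X ×ˢ Y, coll (glue A B p o) := by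
  classical
  have e1 : ∑ d, occ X d * occ Y d = ∑ p ∈ X ×ˢ Y, ∑ d,
      (univ.filter (fun i => p.1 i = d)).card * (univ.filter (fun i => p.2 i = d)).card := by
    unfold occ
    rw [sum_comm]
    refine sum_congr rfl fun d _ => ?_
    rw [sum_mul_sum, sum_product]
  rw [e1]
  refine sum_le_sum fun p _ => ?_
  have e2 : ∀ d : D, (univ.filter (fun i => p.1 i = d)).card * (univ.filter (fun i => p.2 i = d)).card =
      ((univ : Finset ({i // i ∈ A} × {i // i ∈ B})).filter
        (fun q => p.1 q.1 = d ∧ p.2 q.2 = d)).card := by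
    intro d
    rw [← card_product]
    congr 1
    ext q
    simp
  simp_rw [e2]
  have e3 : ∑ d : D, ((univ : Finset ({i // i ∈ A} × {i // i ∈ B})).filter
        (fun q => p.1 q.1 = d ∧ p.2 q.2 = d)).card =
      ((univ : Finset ({i // i ∈ A} × {i // i ∈ B})).filter (fun q => p.1 q.1 = p.2 q.2)).card := by
    have h := card_eq_sum_card_fiberwise
      (s := (univ : Finset ({i // i ∈ A} × {i // i ∈ B})).filter (fun q => p.1 q.1 = p.2 q.2))
      (t := (univ : Finset D)) (f := fun q => p.1 q.1) (fun _ _ => mem_univ _)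
    rw [h]
    refine sum_congr rfl fun d _ => ?_
    congr 1
    ext q
    simp only [mem_filter, mem_univ, true_and]
    constructor
    · rintro ⟨h1, h2⟩
      exact ⟨by rw [h1, h2], h1⟩
    · rintro ⟨h1, h2⟩
      exact ⟨h2, by rw [← h1, h2]⟩
  rw [e3]
  unfold coll
  apply card_le_card_of_injOn (fun q => (q.1.1, q.2.1))
  · intro q hq
    simp only [coe_filter, mem_univ, true_and, Set.mem_ofPred_eq] at hq ⊢
    simp only [glue, Sum.elim_inl, Sum.elim_inr, q.1.2, q.2.2, dif_pos, Subtype.coe_eta]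
    exact hq
  · rintro ⟨⟨q1, _⟩, ⟨q2, _⟩⟩ _ ⟨⟨q3, _⟩, ⟨q4, _⟩⟩ _ h
    simp only [Prod.mk.injEq] at h
    simp [h.1, h.2]

open Classical in
theorem rect_bound2 (A B : Finset (Fin n)) (S : Finset (Fin n ⊕ Fin n → D)) (hA : 1 ≤ A.card)
    (hB : 1 ≤ B.card)
    (mix : ∀ z ∈ S, ∀ z' ∈ S, (∀ i, i ∉ A → z (Sum.inl i) = z' (Sum.inl i)) →
      (∀ i, i ∉ B → z (Sum.inr i) = z' (Sum.inr i)) →
      Sum.elim (fun i => z (Sum.inl i)) (fun i => z' (Sum.inr i)) ∈ S) :
    (A.card : ℝ) * B.card * S.card ≤ 2 * (A.card : ℝ) * B.card *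
      ((1 / 5) ^ B.card * (N2 B S).card + (26 / 27) ^ A.card * (N1 A S).card) +
      2 ^ 20 * Fintype.card D * ((∑ z ∈ S, coll z : ℕ) : ℝ) := by
  have hcS : ((∑ z ∈ S, coll z : ℕ) : ℝ) = ∑ o : ({i // i ∉ A} → D) × ({i // i ∉ B} → D),
      ((∑ p ∈ univ.filter (fun p : ({i // i ∈ A} → D) × ({i // i ∈ B} → D) => glue A B p o ∈ S),
        coll (glue A B p o) : ℕ) : ℝ) := by
    have h1 : ((∑ z ∈ S, coll z : ℕ) : ℝ) = ∑ z, if z ∈ S then (coll z : ℝ) else 0 := by
      rw [Finset.sum_ite_mem, univ_inter]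
      push_cast
      rfl
    rw [h1, sum_glue A B]
    refine sum_congr rfl fun o _ => ?_
    rw [sum_filter]
    push_cast
    rfl
  rw [hcS, card_eq_sum_glue A B S, card_eq_sum_glue A B (N2 B S), card_eq_sum_glue A B (N1 A S), mul_sum,
    mul_sum, mul_sum, ← sum_add_distrib, mul_sum, mul_sum, ← sum_add_distrib]
  refine sum_le_sum fun o _ => ?_
  obtain ⟨xo, yo⟩ := o
  set P := univ.filter (fun p : ({i // i ∈ A} → D) × ({i // i ∈ B} → D) => glue A B p (xo, yo) ∈ S)
    with hP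
  set X := P.image Prod.fst with hX
  set Y := P.image Prod.snd with hY
  have hglue : ∀ p ∈ P, glue A B p (xo, yo) ∈ S := fun p hp => (mem_filter.1 hp).2
  have hPXY : P = X ×ˢ Y := by
    apply Subset.antisymm
    · intro p hp
      rw [mem_product]
      exact ⟨mem_image_of_mem _ hp, mem_image_of_mem _ hp⟩
    · rintro ⟨x, y⟩ hxy
      rw [mem_product] at hxy
      obtain ⟨p, hp, hpx⟩ := mem_image.1 hxy.1
      obtain ⟨p', hp', hpy⟩ := mem_image.1 hxy.2
      have h2 := mix _ (hglue p hp) _ (hglue p' hp') (by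
        intro i hi
        simp [glue, hi]) (by
        intro i hi
        simp [glue, hi])
      rw [hP, mem_filter]
      refine ⟨mem_univ _, ?_⟩
      convert h2 using 1
      funext v
      rcases v with i | i
      · simp only [glue, Sum.elim_inl, hpx]
      · simp only [glue, Sum.elim_inr, hpy]
  have hPc : (P.card : ℝ) = X.card * Y.card := by
    conv_lhs => rw [hPXY]
    rw [card_product]
    push_cast
    rfl
  have k1 : ∀ c : ℕ, (0 : ℝ) ≤ c := fun c => Nat.cast_nonneg c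
  have k2 : (0 : ℝ) ≤ (26 / 27) ^ A.card := pow_nonneg (by norm_num) _
  have k3 : (0 : ℝ) ≤ (1 / 5) ^ B.card := pow_nonneg (by norm_num) _
  have k4 : (0 : ℝ) ≤ 2 * (A.card : ℝ) * B.card :=
    mul_nonneg (mul_nonneg (by norm_num) (k1 _)) (k1 _)
  have k5 : (0 : ℝ) ≤ 2 ^ 20 * (Fintype.card D : ℝ) := mul_nonneg (by norm_num) (k1 _)
  rcases P.eq_empty_or_nonempty with hPe | hPne
  · rw [hPe, card_empty, Nat.cast_zero, mul_zero]
    exact add_nonneg (mul_nonneg k4 (add_nonneg (mul_nonneg k3 (k1 _)) (mul_nonneg k2 (k1 _))))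
      (mul_nonneg k5 (k1 _))
  -- the neighbourhoods
  have hN2 : (X.card : ℝ) * (Fintype.card D : ℝ) ^ B.card ≤
      ((univ.filter (fun p : ({i // i ∈ A} → D) × ({i // i ∈ B} → D) =>
        glue A B p (xo, yo) ∈ N2 B S)).card : ℝ) := by
    have : X ×ˢ (univ : Finset ({i // i ∈ B} → D)) ⊆ univ.filter
        (fun p : ({i // i ∈ A} → D) × ({i // i ∈ B} → D) => glue A B p (xo, yo) ∈ N2 B S) := by
      rintro ⟨x, y⟩ hxy
      rw [mem_product] at hxy
      obtain ⟨p, hp, hpx⟩ := mem_image.1 hxy.1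
      rw [mem_filter]
      refine ⟨mem_univ _, ?_⟩
      rw [N2, mem_filter]
      refine ⟨mem_univ _, _, hglue p hp, ?_, ?_⟩
      · intro i
        simp only [glue, Sum.elim_inl, hpx]
      · intro i hi
        simp [glue, hi]
    have h2 := card_le_card this
    rw [card_product, card_univ, Fintype.card_fun, Fintype.card_coe] at h2
    exact_mod_cast h2
  have hN1 : (Y.card : ℝ) * (Fintype.card D : ℝ) ^ A.card ≤
      ((univ.filter (fun p : ({i // i ∈ A} → D) × ({i // i ∈ B} → D) =>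
        glue A B p (xo, yo) ∈ N1 A S)).card : ℝ) := by
    have : (univ : Finset ({i // i ∈ A} → D)) ×ˢ Y ⊆ univ.filter
        (fun p : ({i // i ∈ A} → D) × ({i // i ∈ B} → D) => glue A B p (xo, yo) ∈ N1 A S) := by
      rintro ⟨x, y⟩ hxy
      rw [mem_product] at hxy
      obtain ⟨p, hp, hpx⟩ := mem_image.1 hxy.2
      rw [mem_filter]
      refine ⟨mem_univ _, ?_⟩
      rw [N1, mem_filter]
      refine ⟨mem_univ _, _, hglue p hp, ?_, ?_⟩
      · intro i hi
        simp [glue, hi]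
      · intro i
        simp only [glue, Sum.elim_inr, hpx]
    have h2 := card_le_card this
    rw [card_product, card_univ, Fintype.card_fun, Fintype.card_coe, mul_comm] at h2
    exact_mod_cast h2
  -- the three cases
  have hX0 : (0 : ℝ) ≤ X.card := Nat.cast_nonneg _
  have hY0 : (0 : ℝ) ≤ Y.card := Nat.cast_nonneg _
  have hD0 : (0 : ℝ) ≤ Fintype.card D := Nat.cast_nonneg _
  have hAB : (0 : ℝ) ≤ (A.card : ℝ) * B.card := mul_nonneg (k1 _) (k1 _)
  have hD1 : 1 ≤ Fintype.card D := by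
    obtain ⟨p, hp⟩ := hPne
    obtain ⟨i, hi⟩ := card_pos.1 hA
    exact Fintype.card_pos_iff.2 ⟨p.1 ⟨i, hi⟩⟩
  have hcA : Fintype.card {i // i ∈ A} = A.card := Fintype.card_coe A
  have hcB : Fintype.card {i // i ∈ B} = B.card := Fintype.card_coe B
  rcases cases3 X Y (by rw [hcA]; exact hA) (by rw [hcB]; exact hB) hD1 with hc | hc | hc
  · rw [hcA] at hc
    calc (A.card : ℝ) * B.card * P.card = (A.card : ℝ) * B.card * (X.card * Y.card) := by rw [hPc]
      _ ≤ (A.card : ℝ) * B.card *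
          (2 * ((26 / 27) ^ A.card * (Fintype.card D : ℝ) ^ A.card) * Y.card) :=
          mul_le_mul_of_nonneg_left (mul_le_mul_of_nonneg_right hc hY0) hAB
      _ = 2 * (A.card : ℝ) * B.card *
          ((26 / 27) ^ A.card * (Y.card * (Fintype.card D : ℝ) ^ A.card)) := by ring
      _ ≤ 2 * (A.card : ℝ) * B.card * ((26 / 27) ^ A.card * _) :=
          mul_le_mul_of_nonneg_left (mul_le_mul_of_nonneg_left hN1 k2) k4
      _ ≤ 2 * (A.card : ℝ) * B.card * (((1 / 5) ^ B.card *
          ((univ.filter (fun p : ({i // i ∈ A} → D) × ({i // i ∈ B} → D) =>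
            glue A B p (xo, yo) ∈ N2 B S)).card : ℝ)) + (26 / 27) ^ A.card *
          ((univ.filter (fun p : ({i // i ∈ A} → D) × ({i // i ∈ B} → D) =>
            glue A B p (xo, yo) ∈ N1 A S)).card : ℝ)) :=
          mul_le_mul_of_nonneg_left (le_add_of_nonneg_left (mul_nonneg k3 (k1 _))) k4
      _ ≤ _ := le_add_of_nonneg_right (mul_nonneg k5 (k1 _))
  · rw [hcB] at hc
    calc (A.card : ℝ) * B.card * P.card = (A.card : ℝ) * B.card * (X.card * Y.card) := by rw [hPc]
      _ ≤ (A.card : ℝ) * B.card *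
          (X.card * (2 * ((1 / 5) ^ B.card * (Fintype.card D : ℝ) ^ B.card))) :=
          mul_le_mul_of_nonneg_left (mul_le_mul_of_nonneg_left hc hX0) hAB
      _ = 2 * (A.card : ℝ) * B.card *
          ((1 / 5) ^ B.card * (X.card * (Fintype.card D : ℝ) ^ B.card)) := by ring
      _ ≤ 2 * (A.card : ℝ) * B.card * ((1 / 5) ^ B.card * _) :=
          mul_le_mul_of_nonneg_left (mul_le_mul_of_nonneg_left hN2 k3) k4
      _ ≤ 2 * (A.card : ℝ) * B.card * (((1 / 5) ^ B.card *
          ((univ.filter (fun p : ({i // i ∈ A} → D) × ({i // i ∈ B} → D) =>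
            glue A B p (xo, yo) ∈ N2 B S)).card : ℝ)) + (26 / 27) ^ A.card *
          ((univ.filter (fun p : ({i // i ∈ A} → D) × ({i // i ∈ B} → D) =>
            glue A B p (xo, yo) ∈ N1 A S)).card : ℝ)) :=
          mul_le_mul_of_nonneg_left (le_add_of_nonneg_right (mul_nonneg k2 (k1 _))) k4
      _ ≤ _ := le_add_of_nonneg_right (mul_nonneg k5 (k1 _))
  · rw [hcA, hcB] at hc
    have h1 := sum_occ_mul A B X Y (xo, yo)
    rw [← hPXY] at h1
    have h2 : ∑ d, (occ X d : ℝ) * occ Y d ≤ ((∑ p ∈ P, coll (glue A B p (xo, yo)) : ℕ) : ℝ) := by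
      exact_mod_cast h1
    calc (A.card : ℝ) * B.card * P.card = (A.card : ℝ) * B.card * (X.card * Y.card) := by rw [hPc]
      _ ≤ 2 ^ 20 * Fintype.card D * ∑ d, (occ X d : ℝ) * occ Y d := hc
      _ ≤ 2 ^ 20 * Fintype.card D * ((∑ p ∈ P, coll (glue A B p (xo, yo)) : ℕ) : ℝ) :=
          mul_le_mul_of_nonneg_left h2 k5
      _ ≤ _ := le_add_of_nonneg_left
        (mul_nonneg k4 (add_nonneg (mul_nonneg k3 (k1 _)) (mul_nonneg k2 (k1 _))))

end

/-- COUNT, with collisions -/
theorem count2 (n r a b e s : ℕ) (D : Type) [Fintype D] [DecidableEq D]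
    (Φ : Forest (Fin n ⊕ Fin n) D r) (col : Fin r → ℕ) (Val : (Fin n → D) → Prop) (ha : 1 ≤ a)
    (hb : 1 ≤ b) (H G : Finset (Fin n ⊕ Fin n → D))
    (hH : ∀ z : Fin n ⊕ Fin n → D, (∀ j, Φ.ac j z) → Val (fun i => z (Sum.inr i)) → z ∈ H)
    (hG : ∀ z ∈ G, (∀ j, Φ.ac j z) ∧ Val (fun i => z (Sum.inr i)) ∧
        b ≤ (univ.filter (fun i : Fin n => ∀ j, Sum.inr i ∈ Φ.rd j z → col j = 2)).card ∧
        a ≤ (from' s (univ.filter (fun i : Fin n => ∀ j, Sum.inl i ∈ Φ.rd j z → col j = 1))).card ∧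
        firsts a (from' s (univ.filter (fun i : Fin n => ∀ j, Sum.inl i ∈ Φ.rd j z → col j = 1))) ⊆
          firsts (a + e) (from' s (univ.filter
            (fun i : Fin n => ∀ j, Sum.inl i ∈ Φ.rd j z → col j ≠ 0)))) :
    (a : ℝ) * b * G.card ≤ 2 * (a : ℝ) * b *
      ((26 / 27) ^ a * (n.choose b) + (1 / 5) ^ b * ((a + e).choose a)) *
        (Fintype.card D : ℝ) ^ (2 * n) +
      2 ^ 20 * Fintype.card D * ((∑ z ∈ H, coll z : ℕ) : ℝ) := by
  classical
  -- the properties in terms of `U1`, `A1`, `A2`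
  have hG' : ∀ z ∈ G, (∀ j, Φ.ac j z) ∧ Val (fun i => z (Sum.inr i)) ∧ b ≤ (A2 Φ col z).card ∧
      a ≤ (from' s (A1 Φ col z)).card ∧
      firsts a (from' s (A1 Φ col z)) ⊆ firsts (a + e) (from' s (U1 Φ col z)) := by
    intro z hz
    obtain ⟨g1, g2, g3, g4, g5⟩ := hG z hz
    refine ⟨g1, g2, ?_, ?_, ?_⟩
    · convert g3 using 2
      ext i
      simp [A2]
    · convert g4 using 3
      ext i
      simp [A1]
    · convert g5 using 3
      · ext i
        simp [A1]
      · ext i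
        simp [U1]
  set F := (univ : Finset (Fin n ⊕ Fin n → D)).filter (fun z => (∀ j, Φ.ac j z) ∧
      Val (fun i => z (Sum.inr i)) ∧ b ≤ (A2 Φ col z).card ∧
      a ≤ (from' s (A1 Φ col z)).card ∧
      firsts a (from' s (A1 Φ col z)) ⊆ firsts (a + e) (from' s (U1 Φ col z))) with hF
  have hGF : G ⊆ F := fun z hz => mem_filter.2 ⟨mem_univ _, hG' z hz⟩
  set fA : (Fin n ⊕ Fin n → D) → Finset (Fin n) := fun z => firsts a (from' s (A1 Φ col z)) with hfA
  set fB : (Fin n ⊕ Fin n → D) → Finset (Fin n) := fun z => firsts b (A2 Φ col z) with hfB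
  have hfA1 : ∀ z i, i ∉ A1 Φ col z → i ∉ fA z := fun z i hi h =>
    hi (filter_subset _ _ (firsts_subset _ _ h))
  have hfB1 : ∀ z i, i ∉ A2 Φ col z → i ∉ fB z := fun z i hi h => hi (firsts_subset _ _ h)
  have hcA : ∀ z ∈ F, (fA z).card = a := fun z hz => firsts_card (mem_filter.1 hz).2.2.2.2.1
  have hcB : ∀ z ∈ F, (fB z).card = b := fun z hz => firsts_card (mem_filter.1 hz).2.2.2.1
  set t := (powersetCard a (univ : Finset (Fin n))) ×ˢ (powersetCard b (univ : Finset (Fin n)))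
    with ht
  have hmaps : ∀ z ∈ F, (fA z, fB z) ∈ t := by
    intro z hz
    rw [ht, mem_product, mem_powersetCard, mem_powersetCard]
    exact ⟨⟨subset_univ _, hcA z hz⟩, ⟨subset_univ _, hcB z hz⟩⟩
  set S : Finset (Fin n) × Finset (Fin n) → Finset (Fin n ⊕ Fin n → D) :=
    fun p => F.filter (fun z => (fA z, fB z) = p) with hS
  have hFsum : F.card = ∑ p ∈ t, (S p).card := card_eq_sum_card_fiberwise hmaps
  -- one pair
  have key : ∀ p ∈ t, (a : ℝ) * b * (S p).card ≤ 2 * (a : ℝ) * b *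
      ((1 / 5) ^ b * (N2 p.2 (S p)).card + (26 / 27) ^ a * (N1 p.1 (S p)).card) +
      2 ^ 20 * Fintype.card D * ((∑ z ∈ S p, coll z : ℕ) : ℝ) := by
    rintro ⟨A, B⟩ hp
    rw [ht, mem_product, mem_powersetCard, mem_powersetCard] at hp
    have hr := rect_bound2 A B (S (A, B)) (by rw [hp.1.2]; exact ha) (by rw [hp.2.2]; exact hb) ?_
    · rw [hp.1.2, hp.2.2] at hr
      exact hr
    · intro z hz z' hz' hl hr
      rw [hS] at hz hz'
      simp only [mem_filter, Prod.mk.injEq] at hz hz'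
      obtain ⟨hzF, hzA, hzB⟩ := hz
      obtain ⟨hzF', hzA', hzB'⟩ := hz'
      set w : Fin n ⊕ Fin n → D := Sum.elim (fun i => z (Sum.inl i)) (fun i => z' (Sum.inr i)) with hw
      -- `w` against `z`
      have s2 : ∀ j, col j ≠ 2 → Φ.rd j z = Φ.rd j w ∧ (Φ.ac j z ↔ Φ.ac j w) := by
        intro j hj
        refine same2 (fun i => by simp [hw]) (fun i hi => ?_) hj
        simp only [hw, Sum.elim_inr]
        exact (hr i (by rw [← hzB]; exact hfB1 z i hi)).symm
      have s1 : ∀ j, col j ≠ 1 → Φ.rd j z' = Φ.rd j w ∧ (Φ.ac j z' ↔ Φ.ac j w) := by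
        intro j hj
        refine same1 (fun i => by simp [hw]) (fun i hi => ?_) hj
        simp only [hw, Sum.elim_inl]
        exact hl i (by rw [← hzA']; exact hfA1 z' i hi)
      have e2 : A2 Φ col w = A2 Φ col z := (A2_same fun j hj => (s2 j hj).1).symm
      have e1 : A1 Φ col w = A1 Φ col z' := (A1_same fun j hj => (s1 j hj).1).symm
      have e0 : U1 Φ col w = U1 Φ col z' := (U1_same fun j hj => (s1 j (by omega)).1).symm
      have p1 := (mem_filter.1 hzF).2
      have p2 := (mem_filter.1 hzF').2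
      rw [hS]
      simp only [mem_filter, Prod.mk.injEq]
      refine ⟨?_, ?_, ?_⟩
      · rw [hF, mem_filter]
        refine ⟨mem_univ _, ?_, ?_, ?_, ?_, ?_⟩
        · intro j
          by_cases hj : col j = 2
          · exact (s1 j (by omega)).2.1 (p2.1 j)
          · exact (s2 j hj).2.1 (p1.1 j)
        · have : (fun i => w (Sum.inr i)) = fun i => z' (Sum.inr i) := by
            funext i; simp [hw]
          rw [this]
          exact p2.2.1
        · rw [e2]; exact p1.2.2.1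
        · rw [e1]; exact p2.2.2.2.1
        · rw [e1, e0]; exact p2.2.2.2.2
      · simp only [hfA, e1]
        exact hzA'
      · simp only [hfB, e2]
        exact hzB
  -- sum of the neighbourhoods
  have hswap : ∀ (N : Finset (Fin n) × Finset (Fin n) → Finset (Fin n ⊕ Fin n → D)) (C : ℕ),
      (∀ z, (t.filter (fun p => z ∈ N p)).card ≤ C) →
      ((∑ p ∈ t, (N p).card : ℕ) : ℝ) ≤ C * (Fintype.card D : ℝ) ^ (2 * n) := by
    intro N C hC
    have e1 : ∑ p ∈ t, (N p).card = ∑ z : Fin n ⊕ Fin n → D, (t.filter (fun p => z ∈ N p)).card := by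
      simp_rw [card_filter]
      rw [sum_comm]
      refine sum_congr rfl fun p _ => ?_
      rw [← card_filter]
      congr 1
      ext z
      simp
    rw [e1]
    have e2 : ∑ z : Fin n ⊕ Fin n → D, (t.filter (fun p => z ∈ N p)).card ≤
        ∑ _z : Fin n ⊕ Fin n → D, C := sum_le_sum fun z _ => hC z
    rw [sum_const, card_univ, Fintype.card_fun, Fintype.card_sum, Fintype.card_fin, smul_eq_mul] at e2
    calc ((∑ z : Fin n ⊕ Fin n → D, (t.filter (fun p => z ∈ N p)).card : ℕ) : ℝ)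
        ≤ ((Fintype.card D ^ (n + n) * C : ℕ) : ℝ) := by exact_mod_cast e2
      _ = _ := by push_cast; rw [two_mul]; ring
  have hN2 : ((∑ p ∈ t, (N2 p.2 (S p)).card : ℕ) : ℝ) ≤
      ((a + e).choose a : ℕ) * (Fintype.card D : ℝ) ^ (2 * n) := by
    apply hswap
    intro z
    have hsub : t.filter (fun p => z ∈ N2 p.2 (S p)) ⊆
        (powersetCard a (firsts (a + e) (from' s (U1 Φ col z)))) ×ˢ {fB z} := by
      rintro ⟨A, B⟩ hp
      rw [mem_filter] at hp
      obtain ⟨hp1, hp2⟩ := hp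
      simp only [N2, mem_filter, mem_univ, true_and] at hp2
      obtain ⟨z', hz', hl, hr⟩ := hp2
      rw [hS] at hz'
      simp only [mem_filter, Prod.mk.injEq] at hz'
      obtain ⟨hzF', hzA', hzB'⟩ := hz'
      have s2 : ∀ j, col j ≠ 2 → Φ.rd j z' = Φ.rd j z ∧ (Φ.ac j z' ↔ Φ.ac j z) := by
        intro j hj
        refine same2 hl (fun i hi => hr i ?_) hj
        rw [← hzB']
        exact hfB1 z' i hi
      have e2 : A2 Φ col z = A2 Φ col z' := (A2_same fun j hj => (s2 j hj).1).symm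
      have e0 : U1 Φ col z = U1 Φ col z' := (U1_same fun j hj => (s2 j (by omega)).1).symm
      have p2 := (mem_filter.1 hzF').2
      rw [mem_product, mem_powersetCard, mem_singleton]
      refine ⟨⟨?_, ?_⟩, ?_⟩
      · rw [e0, ← hzA']
        exact p2.2.2.2.2
      · rw [← hzA']
        exact hcA z' hzF'
      · simp only [hfB, e2]
        exact hzB'.symm
    refine (card_le_card hsub).trans ?_
    rw [card_product, card_powersetCard, card_singleton, mul_one]
    exact Nat.choose_le_choose _ (firsts_card_le _ _)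
  have hN1 : ((∑ p ∈ t, (N1 p.1 (S p)).card : ℕ) : ℝ) ≤
      (n.choose b : ℕ) * (Fintype.card D : ℝ) ^ (2 * n) := by
    apply hswap
    intro z
    have hsub : t.filter (fun p => z ∈ N1 p.1 (S p)) ⊆
        {fA z} ×ˢ (powersetCard b (univ : Finset (Fin n))) := by
      rintro ⟨A, B⟩ hp
      rw [mem_filter] at hp
      obtain ⟨hp1, hp2⟩ := hp
      simp only [N1, mem_filter, mem_univ, true_and] at hp2
      obtain ⟨z', hz', hl, hr⟩ := hp2
      rw [hS] at hz'
      simp only [mem_filter, Prod.mk.injEq] at hz'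
      obtain ⟨hzF', hzA', hzB'⟩ := hz'
      have s1 : ∀ j, col j ≠ 1 → Φ.rd j z' = Φ.rd j z ∧ (Φ.ac j z' ↔ Φ.ac j z) := by
        intro j hj
        refine same1 hr (fun i hi => hl i ?_) hj
        rw [← hzA']
        exact hfA1 z' i hi
      have e1 : A1 Φ col z = A1 Φ col z' := (A1_same fun j hj => (s1 j hj).1).symm
      rw [ht, mem_product] at hp1
      rw [mem_product, mem_singleton]
      refine ⟨?_, hp1.2⟩
      simp only [hfA, e1]
      exact hzA'.symm
    refine (card_le_card hsub).trans ?_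
    rw [card_product, card_powersetCard, card_singleton, one_mul, card_univ, Fintype.card_fin]
  have hFH : F ⊆ H := by
    intro z hz
    have p1 := (mem_filter.1 hz).2
    exact hH z p1.1 p1.2.1
  have hcoll : ∑ p ∈ t, ∑ z ∈ S p, coll z ≤ ∑ z ∈ H, coll z := by
    rw [hS, sum_fiberwise_of_maps_to hmaps]
    exact sum_le_sum_of_subset_of_nonneg hFH fun _ _ _ => Nat.zero_le _
  have ha0 : (0 : ℝ) ≤ a := Nat.cast_nonneg _
  have hb0 : (0 : ℝ) ≤ b := Nat.cast_nonneg _
  calc (a : ℝ) * b * G.card ≤ a * b * F.card :=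
        mul_le_mul_of_nonneg_left (by exact_mod_cast card_le_card hGF) (mul_nonneg ha0 hb0)
    _ = ∑ p ∈ t, (a : ℝ) * b * ((S p).card : ℝ) := by
        rw [hFsum, ← mul_sum]; push_cast; rfl
    _ ≤ ∑ p ∈ t, (2 * (a : ℝ) * b *
      ((1 / 5) ^ b * (N2 p.2 (S p)).card + (26 / 27) ^ a * (N1 p.1 (S p)).card) +
      2 ^ 20 * Fintype.card D * ((∑ z ∈ S p, coll z : ℕ) : ℝ)) := sum_le_sum key
    _ = 2 * (a : ℝ) * b * ((1 / 5) ^ b * ((∑ p ∈ t, (N2 p.2 (S p)).card : ℕ) : ℝ) +
        (26 / 27) ^ a * ((∑ p ∈ t, (N1 p.1 (S p)).card : ℕ) : ℝ)) +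
        2 ^ 20 * Fintype.card D * ((∑ p ∈ t, ∑ z ∈ S p, coll z : ℕ) : ℝ) := by
        rw [sum_add_distrib, ← mul_sum, ← mul_sum, sum_add_distrib, ← mul_sum, ← mul_sum]
        push_cast; rfl
    _ ≤ 2 * (a : ℝ) * b * ((1 / 5) ^ b * (((a + e).choose a : ℕ) * (Fintype.card D : ℝ) ^ (2 * n)) +
        (26 / 27) ^ a * ((n.choose b : ℕ) * (Fintype.card D : ℝ) ^ (2 * n))) +
        2 ^ 20 * Fintype.card D * ((∑ z ∈ H, coll z : ℕ) : ℝ) := by
        refine add_le_add (mul_le_mul_of_nonneg_left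
          (add_le_add (mul_le_mul_of_nonneg_left hN2 (by positivity))
          (mul_le_mul_of_nonneg_left hN1 (by positivity))) (by positivity)) ?_
        exact mul_le_mul_of_nonneg_left (by exact_mod_cast hcoll) (by positivity)
    _ = _ := by ring

end Pool.Agent.L7h66.TR
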