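import Pool.Agent.L7h66.TR.Main
import Pool.Agent.L7h35.TS.Enc
import Pool.Agent.L7h35.TS.Good

/-! # Project TR: all forests, random programs, lists of edges -/

set_option autoImplicit false

namespace Pool.Agent.L7h66.TR

open Finset
open Pool.Agent.L7h66.TS (Prog Forest Prog.pad_st Simple Triangle)

theorem main2 (n k T : ℕ) (D Q : Type) [Fintype D] [DecidableEq D] [Fintype Q]
    (P : Prog (Fin n ⊕ Fin n) D Q) (Val : (Fin n → D) → Prop) (hk : 1 ≤ k) (hrn : rr k ≤ n)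
    (hT : T ≤ (k - 1) * n) (hb : 1 ≤ bb k n) (H G : Finset (Fin n ⊕ Fin n → D))
    (hH : ∀ z : Fin n ⊕ Fin n → D, P.out (P.st z T) → Val (fun i => z (Sum.inr i)) → z ∈ H)
    (hG : ∀ z ∈ G, P.out (P.st z T) ∧ Val (fun i => z (Sum.inr i))) :
    (G.card : ℝ) ≤ (Fintype.card Q : ℝ) ^ rr k *
        (80 / th k ^ 2 * (1 / 2) ^ bb k n * (Fintype.card D : ℝ) ^ (2 * n)) +
      2 ^ 31 * lam k / th k ^ 4 * (Fintype.card D / n ^ 2) * ((∑ z ∈ H, coll z : ℕ) : ℝ) := by
  classical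
  have hr := rr_pos hk
  have hn : 1 ≤ n := hr.trans hrn
  have hθ := th_pos hk
  set h := k * n / rr k with hh
  have hrh : rr k * h ≤ k * n := Nat.mul_div_le _ _
  have hTr : T ≤ rr k * h := by
    have h1 : k * n < rr k * h + rr k := by
      have := Nat.lt_mul_div_succ (k * n) hr
      rw [mul_add, mul_one] at this
      exact this
    have h2 : (k - 1) * n + n = k * n := by
      obtain ⟨k', rfl⟩ : ∃ k', k = k' + 1 := ⟨k - 1, by omega⟩
      simp
      ring
    omega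
  obtain ⟨Φ, hΦ1, hΦ2, hΦ3⟩ := forest (Fin n ⊕ Fin n) D Q (P.pad T) (rr k) h hr
  have hst : ∀ z, (P.pad T).st z (rr k * h) = P.st z T := by
    intro z
    rw [Prog.pad_st, min_eq_right hTr]
  have hout : ∀ z, P.out (P.st z T) ↔ ∃ v, ∀ j, (Φ v).ac j z := by
    intro z
    rw [← hΦ2 z, hst]
    rfl
  have hcover : G ⊆ (univ : Finset (Fin (rr k) → Q)).biUnion (fun v =>
      G.filter (fun z => ∀ j, (Φ v).ac j z)) := by
    intro z hz
    obtain ⟨v, hv⟩ := (hout z).1 (hG z hz).1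
    rw [mem_biUnion]
    exact ⟨v, mem_univ _, mem_filter.2 ⟨hz, hv⟩⟩
  have hone : ∀ v ∈ (univ : Finset (Fin (rr k) → Q)),
      ((G.filter (fun z => ∀ j, (Φ v).ac j z)).card : ℝ) ≤
      80 / th k ^ 2 * (1 / 2) ^ bb k n * (Fintype.card D : ℝ) ^ (2 * n) +
      2 ^ 31 * lam k / th k ^ 4 * (Fintype.card D / n ^ 2) *
        ((∑ z ∈ H.filter (fun z => ∀ j, (Φ v).ac j z), coll z : ℕ) : ℝ) := by
    intro v _
    refine forest_bound2 n k h D (Φ v) Val hk hn hb (hΦ1 v) hrh _ _ ?_ ?_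
    · intro z hz hV
      exact mem_filter.2 ⟨hH z ((hout z).2 ⟨v, hz⟩) hV, hz⟩
    · intro z hz
      rw [mem_filter] at hz
      exact ⟨hz.2, (hG z hz.1).2⟩
  have h1 := (card_le_card hcover).trans card_biUnion_le
  have h2 : (G.card : ℝ) ≤ ((∑ v : Fin (rr k) → Q,
      (G.filter (fun z => ∀ j, (Φ v).ac j z)).card : ℕ) : ℝ) := by exact_mod_cast h1
  refine h2.trans ?_
  rw [Nat.cast_sum]
  refine (sum_le_sum hone).trans ?_
  rw [sum_add_distrib, sum_const, card_univ, Fintype.card_fun, Fintype.card_fin, nsmul_eq_mul,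
    ← mul_sum]
  push_cast
  refine add_le_add le_rfl (mul_le_mul_of_nonneg_left ?_ (by positivity))
  have h3 : ∑ v : Fin (rr k) → Q, ∑ z ∈ H.filter (fun z => ∀ j, (Φ v).ac j z), coll z ≤
      ∑ z ∈ H, coll z := by
    simp_rw [sum_filter]
    rw [sum_comm]
    refine sum_le_sum fun z _ => ?_
    by_cases hz : ∃ v, ∀ j, (Φ v).ac j z
    · obtain ⟨v, hv⟩ := hz
      rw [sum_eq_single v]
      · rw [if_pos hv]
      · intro v' _ hne
        rw [if_neg]
        intro hv'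
        exact hne (hΦ3 z v' v hv' hv)
      · intro hv'
        exact absurd (mem_univ _) hv'
    · push Not at hz
      rw [sum_eq_zero]
      · exact Nat.zero_le _
      · intro v _
        rw [if_neg]
        push Not
        exact hz v
  exact_mod_cast h3

/-! ## the number of collisions -/

lemma sum_coll (n : ℕ) (D : Type) [Fintype D] [DecidableEq D] :
    Fintype.card D * ∑ z : Fin n ⊕ Fin n → D, coll z ≤ n ^ 2 * Fintype.card D ^ (2 * n) := by
  classical
  have h1 : ∑ z : Fin n ⊕ Fin n → D, coll z = ∑ p : Fin n × Fin n,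
      ((univ : Finset (Fin n ⊕ Fin n → D)).filter (fun z => z (Sum.inl p.1) = z (Sum.inr p.2))).card := by
    unfold coll
    simp_rw [card_filter]
    exact sum_comm
  rw [h1, mul_sum]
  calc ∑ p : Fin n × Fin n, Fintype.card D *
      ((univ : Finset (Fin n ⊕ Fin n → D)).filter (fun z => z (Sum.inl p.1) = z (Sum.inr p.2))).card
      ≤ ∑ _p : Fin n × Fin n, Fintype.card D ^ (2 * n) := by
        refine sum_le_sum fun p _ => ?_
        have := Pool.Agent.L7h35.TS.card_eq_places (D := D) (Sum.inl p.1 : Fin n ⊕ Fin n)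
          (Sum.inr p.2) (by simp)
        rwa [Fintype.card_sum, Fintype.card_fin, ← two_mul] at this
    _ = n ^ 2 * Fintype.card D ^ (2 * n) := by
        rw [sum_const, card_univ, Fintype.card_prod, Fintype.card_fin, smul_eq_mul, sq]

/-! ## random programs -/

open Classical in
theorem random_items (n k T : ℕ) (D Q : Type) [Fintype D] [DecidableEq D] [Fintype Q] (hk : 1 ≤ k)
    (hrn : rr k ≤ n) (hT : T ≤ (k - 1) * n) (hb : 1 ≤ bb k n)
    (hD : 1 ≤ Fintype.card D)
    (hgood : (Fintype.card D : ℝ) ^ (2 * n) ≤ 2 * (((univ : Finset (Fin n ⊕ Fin n → D)).filter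
      (fun z => Function.Injective (fun i => z (Sum.inr i)) ∧
        ∀ i i', z (Sum.inl i) ≠ z (Sum.inr i'))).card : ℝ))
    {Ω : Type} [Fintype Ω] (w : Ω → ℝ)
    (hw0 : ∀ ω, 0 ≤ w ω) (hw1 : ∑ ω, w ω = 1)
    (P : Ω → Prog (Fin n ⊕ Fin n) D Q) (φ ε : ℝ)
    (hφ : ∀ z : Fin n ⊕ Fin n → D,
      Function.Injective (fun i => z (Sum.inr i)) → (∀ i i', z (Sum.inl i) ≠ z (Sum.inr i')) →
      φ ≤ ∑ ω, if (P ω).out ((P ω).st z T) then w ω else 0)
    (hε : ∀ z : Fin n ⊕ Fin n → D,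
      Function.Injective (fun i => z (Sum.inr i)) → (∃ i i', z (Sum.inl i) = z (Sum.inr i')) →
      ∑ ω, (if (P ω).out ((P ω).st z T) then w ω else 0) ≤ ε) (hφ0 : 0 ≤ φ) (hε0 : 0 ≤ ε) :
    φ / 2 ≤ (Fintype.card Q : ℝ) ^ rr k * (80 / th k ^ 2 * (1 / 2) ^ bb k n) +
      2 ^ 31 * lam k / th k ^ 4 * ε := by
  have hr := rr_pos hk
  have hn : 1 ≤ n := hr.trans hrn
  have hn0 : (0 : ℝ) < n := by exact_mod_cast hn
  have hθ := th_pos hk
  have hN0 : (0 : ℝ) < Fintype.card D := by exact_mod_cast hD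
  set Val : (Fin n → D) → Prop := Function.Injective with hVal
  set gd : Finset (Fin n ⊕ Fin n → D) := univ.filter (fun z =>
    Function.Injective (fun i => z (Sum.inr i)) ∧ ∀ i i', z (Sum.inl i) ≠ z (Sum.inr i')) with hgd
  set vl : Finset (Fin n ⊕ Fin n → D) := univ.filter (fun z =>
    Function.Injective (fun i => z (Sum.inr i))) with hvl
  set A : ℝ := (Fintype.card Q : ℝ) ^ rr k * (80 / th k ^ 2 * (1 / 2) ^ bb k n) with hA
  set B : ℝ := 2 ^ 31 * lam k / th k ^ 4 with hB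
  have hB0 : 0 ≤ B := by positivity
  have hmain : ∀ ω, ((gd.filter (fun z => (P ω).out ((P ω).st z T))).card : ℝ) ≤
      A * (Fintype.card D : ℝ) ^ (2 * n) + B * (Fintype.card D / n ^ 2) *
        ((∑ z ∈ vl.filter (fun z => (P ω).out ((P ω).st z T)), coll z : ℕ) : ℝ) := by
    intro ω
    have := main2 n k T D Q (P ω) Val hk hrn hT hb
      (vl.filter (fun z => (P ω).out ((P ω).st z T)))
      (gd.filter (fun z => (P ω).out ((P ω).st z T))) (by
        intro z hz hv
        rw [mem_filter, hvl, mem_filter]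
        exact ⟨⟨mem_univ _, hv⟩, hz⟩) (by
        intro z hz
        rw [mem_filter, hgd, mem_filter] at hz
        exact ⟨hz.2, hz.1.2.1⟩)
    refine this.trans (le_of_eq ?_)
    rw [hA, hB]
    ring
  -- the average
  have hL : φ * gd.card ≤ ∑ ω, w ω *
      ((gd.filter (fun z => (P ω).out ((P ω).st z T))).card : ℝ) := by
    have e1 : ∑ ω, w ω * ((gd.filter (fun z => (P ω).out ((P ω).st z T))).card : ℝ) =
        ∑ z ∈ gd, ∑ ω, if (P ω).out ((P ω).st z T) then w ω else 0 := by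
      rw [sum_comm]
      refine sum_congr rfl fun ω _ => ?_
      rw [card_filter, Nat.cast_sum, mul_sum]
      refine sum_congr rfl fun z _ => ?_
      split_ifs <;> simp
    rw [e1, mul_comm, ← nsmul_eq_mul, ← sum_const]
    refine sum_le_sum fun z hz => ?_
    rw [hgd, mem_filter] at hz
    exact hφ z hz.2.1 hz.2.2
  have hR : ∑ ω, w ω * ((∑ z ∈ vl.filter (fun z => (P ω).out ((P ω).st z T)), coll z : ℕ) : ℝ) ≤
      ε * ((∑ z : Fin n ⊕ Fin n → D, coll z : ℕ) : ℝ) := by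
    have e1 : ∑ ω, w ω * ((∑ z ∈ vl.filter (fun z => (P ω).out ((P ω).st z T)), coll z : ℕ) : ℝ) =
        ∑ z ∈ vl, (coll z : ℝ) * ∑ ω, if (P ω).out ((P ω).st z T) then w ω else 0 := by
      simp_rw [mul_sum]
      rw [sum_comm]
      refine sum_congr rfl fun ω _ => ?_
      rw [sum_filter, Nat.cast_sum, mul_sum]
      refine sum_congr rfl fun z _ => ?_
      split_ifs
      · ring
      · simp
    rw [e1, Nat.cast_sum, mul_sum]
    calc ∑ z ∈ vl, (coll z : ℝ) * ∑ ω, (if (P ω).out ((P ω).st z T) then w ω else 0) ≤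
          ∑ z ∈ vl, ε * (coll z : ℝ) := by
          refine sum_le_sum fun z hz => ?_
          by_cases hc : ∃ i i', z (Sum.inl i) = z (Sum.inr i')
          · rw [mul_comm]
            exact mul_le_mul_of_nonneg_right (hε z (mem_filter.1 hz).2 hc) (Nat.cast_nonneg _)
          · have : coll z = 0 := by
              unfold coll
              rw [card_eq_zero, filter_eq_empty_iff]
              intro p _ hp
              exact hc ⟨p.1, p.2, hp⟩
            rw [this]
            simp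
      _ ≤ ∑ z : Fin n ⊕ Fin n → D, ε * (coll z : ℝ) :=
          sum_le_sum_of_subset_of_nonneg (subset_univ _) fun z _ _ => by positivity
  have hsumc := sum_coll n D
  have hsumc' : (Fintype.card D : ℝ) / n ^ 2 * ((∑ z : Fin n ⊕ Fin n → D, coll z : ℕ) : ℝ) ≤
      (Fintype.card D : ℝ) ^ (2 * n) := by
    rw [div_mul_eq_mul_div, div_le_iff₀ (by positivity)]
    have : ((Fintype.card D * ∑ z : Fin n ⊕ Fin n → D, coll z : ℕ) : ℝ) ≤
        ((n ^ 2 * Fintype.card D ^ (2 * n) : ℕ) : ℝ) := by exact_mod_cast hsumc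
    rw [Nat.cast_mul, Nat.cast_mul, Nat.cast_pow, Nat.cast_pow] at this
    linarith
  have hfin : φ * gd.card ≤ (A + B * ε) * (Fintype.card D : ℝ) ^ (2 * n) := by
    calc φ * gd.card ≤ ∑ ω, w ω *
          ((gd.filter (fun z => (P ω).out ((P ω).st z T))).card : ℝ) := hL
      _ ≤ ∑ ω, w ω * (A * (Fintype.card D : ℝ) ^ (2 * n) + B * (Fintype.card D / n ^ 2) *
        ((∑ z ∈ vl.filter (fun z => (P ω).out ((P ω).st z T)), coll z : ℕ) : ℝ)) :=
          sum_le_sum fun ω _ => mul_le_mul_of_nonneg_left (hmain ω) (hw0 ω)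
      _ = A * (Fintype.card D : ℝ) ^ (2 * n) + B * (Fintype.card D / n ^ 2) *
          ∑ ω, w ω * ((∑ z ∈ vl.filter (fun z => (P ω).out ((P ω).st z T)), coll z : ℕ) : ℝ) := by
          simp_rw [mul_add]
          rw [sum_add_distrib, ← sum_mul, hw1, one_mul, mul_sum]
          congr 1
          refine sum_congr rfl fun ω _ => ?_
          ring
      _ ≤ A * (Fintype.card D : ℝ) ^ (2 * n) + B * (Fintype.card D / n ^ 2) *
          (ε * ((∑ z : Fin n ⊕ Fin n → D, coll z : ℕ) : ℝ)) :=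
          add_le_add le_rfl (mul_le_mul_of_nonneg_left hR (by positivity))
      _ = A * (Fintype.card D : ℝ) ^ (2 * n) + B * ε * ((Fintype.card D : ℝ) / n ^ 2 *
          ((∑ z : Fin n ⊕ Fin n → D, coll z : ℕ) : ℝ)) := by ring
      _ ≤ A * (Fintype.card D : ℝ) ^ (2 * n) + B * ε * (Fintype.card D : ℝ) ^ (2 * n) :=
          add_le_add le_rfl (mul_le_mul_of_nonneg_left hsumc' (by positivity))
      _ = _ := by ring
  have hND : (0 : ℝ) < (Fintype.card D : ℝ) ^ (2 * n) := by positivity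
  have h1 : φ / 2 * (Fintype.card D : ℝ) ^ (2 * n) ≤ (A + B * ε) * (Fintype.card D : ℝ) ^ (2 * n) := by
    calc φ / 2 * (Fintype.card D : ℝ) ^ (2 * n) ≤ φ / 2 * (2 * gd.card) :=
          mul_le_mul_of_nonneg_left hgood (by positivity)
      _ = φ * gd.card := by ring
      _ ≤ _ := hfin
  exact le_of_mul_le_mul_right h1 hND

/-! ## lists of edges -/

/-- the program for items obtained from a program for edges -/
def conv {m n V : ℕ} {Q : Type} (it : Fin m → Fin n ⊕ Fin n)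
    (ent : Fin m → Fin (2 * n) × Fin (2 * n) → Fin V × Fin V) (P : Prog (Fin m) (Fin V × Fin V) Q) :
    Prog (Fin n ⊕ Fin n) (Fin (2 * n) × Fin (2 * n)) Q where
  init := P.init
  pos := fun t q => it (P.pos t q)
  next := fun t q d => P.next t q (ent (P.pos t q) d)
  out := P.out

lemma conv_st {m n V : ℕ} {Q : Type} (it : Fin m → Fin n ⊕ Fin n)
    (ent : Fin m → Fin (2 * n) × Fin (2 * n) → Fin V × Fin V) (P : Prog (Fin m) (Fin V × Fin V) Q)
    (z : Fin n ⊕ Fin n → Fin (2 * n) × Fin (2 * n)) (t : ℕ) :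
    (conv it ent P).st z t = P.st (fun l => ent l (z (it l))) t := by
  induction t with
  | zero => rfl
  | succ t ih =>
    rw [Prog.st, Prog.st, ih]
    rfl

open Classical in
theorem random_edges (n m V k T : ℕ) (Q : Type) [Fintype Q] (hn3 : 3 ≤ n) (hm1 : 3 * n ≤ m)
    (hm2 : m ≤ 3 * n + 2) (hV : 2 * m ≤ V) (hk : 1 ≤ k) (hrn : rr k ≤ n)
    (hT : T ≤ (k - 1) * n) (hb : 1 ≤ bb k n) {Ω : Type} [Fintype Ω] (w : Ω → ℝ)
    (hw0 : ∀ ω, 0 ≤ w ω) (hw1 : ∑ ω, w ω = 1)
    (P : Ω → Prog (Fin m) (Fin V × Fin V) Q) (φ ε : ℝ)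
    (hφ : ∀ E : Fin m → Fin V × Fin V, Simple E → ¬ Triangle E →
      φ ≤ ∑ ω, if (P ω).out ((P ω).st E T) then w ω else 0)
    (hε : ∀ E : Fin m → Fin V × Fin V, Simple E → Triangle E →
      ∑ ω, (if (P ω).out ((P ω).st E T) then w ω else 0) ≤ ε) (hφ0 : 0 ≤ φ) (hε0 : 0 ≤ ε) :
    φ / 2 ≤ (Fintype.card Q : ℝ) ^ rr k * (80 / th k ^ 2 * (1 / 2) ^ bb k n) +
      2 ^ 31 * lam k / th k ^ 4 * ε := by
  obtain ⟨it, ent, h⟩ := Pool.Agent.L7h35.TS.s_ENC n m V hn3 hm1 hm2 hV
  have hcD : Fintype.card (Fin (2 * n) × Fin (2 * n)) = (2 * n) ^ 2 := by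
    rw [Fintype.card_prod, Fintype.card_fin, sq]
  have hgood : (Fintype.card (Fin (2 * n) × Fin (2 * n)) : ℝ) ^ (2 * n) ≤
      2 * (((univ : Finset (Fin n ⊕ Fin n → Fin (2 * n) × Fin (2 * n))).filter
      (fun z => Function.Injective (fun i => z (Sum.inr i)) ∧
        ∀ i i', z (Sum.inl i) ≠ z (Sum.inr i'))).card : ℝ) := by
    have h1 := Pool.Agent.L7h35.TS.s_GOOD n (by omega)
    rw [← hcD] at h1
    have h2 : (Fintype.card (Fin (2 * n) × Fin (2 * n))) ^ (2 * n) ≤
      2 * (((univ : Finset (Fin n ⊕ Fin n → Fin (2 * n) × Fin (2 * n))).filter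
      (fun z => Function.Injective (fun i => z (Sum.inr i)) ∧
        ∀ i i', z (Sum.inl i) ≠ z (Sum.inr i'))).card) := by
      convert h1
    exact_mod_cast h2
  refine random_items n k T _ Q hk hrn hT hb (by
    rw [hcD]
    exact Nat.pos_of_ne_zero (by positivity)) hgood w hw0 hw1
    (fun ω => conv it ent (P ω)) φ ε ?_ ?_ hφ0 hε0
  · intro z hz1 hz2
    have h1 := hφ _ ((h z).1.2 hz1) (fun hc => by
      obtain ⟨i, i', hi⟩ := (h z).2.1 hc
      exact hz2 i i' hi)
    refine h1.trans (le_of_eq ?_)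
    refine sum_congr rfl fun ω _ => ?_
    rw [conv_st]
    rfl
  · intro z hz1 hz2
    have h1 := hε _ ((h z).1.2 hz1) ((h z).2.2 hz2)
    refine le_trans (le_of_eq ?_) h1
    refine sum_congr rfl fun ω _ => ?_
    rw [conv_st]
    rfl

end Pool.Agent.L7h66.TR
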