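import Pool.Agent.L7h66.TR.Fin

/-! # Project TR: the final numbers -/

set_option autoImplicit false

namespace Pool.Agent.L7h66.TR

open Finset
open Pool.Agent.L7h66.TS (Prog Simple Triangle)

lemma rr_ge {K : ℕ} (hK : 1 ≤ K) : 64 ≤ rr K := by
  unfold rr
  have h0 : 1 ≤ LL K := LL_pos hK
  have h1 : 1 ≤ (256 * LL K ^ 2) ^ K := Nat.one_le_pow _ _ (by
    have : 1 ≤ LL K ^ 2 := Nat.one_le_pow _ _ h0
    omega)
  have h2 : 64 ≤ LL K := by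
    unfold LL
    have : 1 ≤ lam K ^ 2 := Nat.one_le_pow _ _ (lam_pos hK)
    nlinarith
  calc 64 = 1 * 64 * 1 := by norm_num
    _ ≤ K * LL K * (256 * LL K ^ 2) ^ K := Nat.mul_le_mul (Nat.mul_le_mul hK h2) h1

lemma bb_large {K n S : ℕ} (hK : 1 ≤ K) (h : 2 ^ 16 * rr K ^ 2 * S ≤ n) :
    4 * rr K * S ≤ bb K n := by
  have hr := rr_pos hK
  have hr0 : (0 : ℝ) < rr K := by exact_mod_cast hr
  have hK0 : (0 : ℝ) < K := by exact_mod_cast hK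
  unfold bb
  apply Nat.le_floor
  rw [th_eq hK]
  have hlam : (lam K : ℝ) = 4096 * (K : ℝ) ^ 2 := by unfold lam; push_cast; ring
  rw [hlam]
  have e1 : (K : ℝ) ^ 2 / rr K * n / (4 * (4096 * (K : ℝ) ^ 2)) = n / (2 ^ 14 * rr K) := by
    field_simp
    ring
  rw [e1, le_div_iff₀ (by positivity)]
  have h1 : ((2 ^ 16 * rr K ^ 2 * S : ℕ) : ℝ) ≤ n := by exact_mod_cast h
  push_cast at h1 ⊢
  nlinarith

lemma small_main {K n S : ℕ} (hK : 1 ≤ K) (hS : 1 ≤ S) (h : 2 ^ 16 * rr K ^ 2 * S ≤ n) :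
    (2 : ℝ) ^ (S * rr K) * (80 / th K ^ 2 * (1 / 2) ^ bb K n) ≤ (1 / 2) ^ S / 4 := by
  have hr := rr_pos hK
  have hr64 := rr_ge hK
  have hr0 : (0 : ℝ) < rr K := by exact_mod_cast hr
  have hK0 : (0 : ℝ) < K := by exact_mod_cast hK
  have hK1 : (1 : ℝ) ≤ K := by exact_mod_cast hK
  have hth := th_pos hK
  have hb := bb_large hK h
  have h1 : 80 / th K ^ 2 ≤ 2 ^ 7 * (2 : ℝ) ^ (2 * rr K) := by
    rw [div_le_iff₀ (by positivity), th_eq hK]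
    have e1 : (rr K : ℝ) ≤ 2 ^ rr K := by exact_mod_cast (Nat.lt_two_pow_self (n := rr K)).le
    have e2 : (1 : ℝ) ≤ (K : ℝ) ^ 4 := one_le_pow₀ hK1
    have e3 : (rr K : ℝ) ^ 2 ≤ 2 ^ (2 * rr K) := by
      rw [mul_comm, pow_mul]
      exact pow_le_pow_left₀ hr0.le e1 2
    have e4 : (1 : ℝ) ≤ 2 ^ (2 * rr K) / (rr K : ℝ) ^ 2 := by
      rw [le_div_iff₀ (by positivity)]
      linarith
    calc (80 : ℝ) ≤ 2 ^ 7 * (1 * 1) := by norm_num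
      _ ≤ 2 ^ 7 * (2 ^ (2 * rr K) / (rr K : ℝ) ^ 2 * (K : ℝ) ^ 4) := by gcongr
      _ = 2 ^ 7 * 2 ^ (2 * rr K) * ((K : ℝ) ^ 2 / rr K) ^ 2 := by
          rw [div_pow]
          ring
  have h2 : ((1 : ℝ) / 2) ^ bb K n ≤ (1 / 2) ^ (4 * rr K * S) :=
    pow_le_pow_of_le_one (by norm_num) (by norm_num) hb
  calc (2 : ℝ) ^ (S * rr K) * (80 / th K ^ 2 * (1 / 2) ^ bb K n) ≤
        2 ^ (S * rr K) * (2 ^ 7 * 2 ^ (2 * rr K) * (1 / 2) ^ (4 * rr K * S)) := by gcongr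
    _ = 2 ^ (S * rr K + 7 + 2 * rr K) * (1 / 2) ^ (4 * rr K * S) := by
        rw [pow_add, pow_add]
        ring
    _ ≤ (1 / 2) ^ S / 4 := by
        have e1 : S * rr K + 7 + 2 * rr K + S + 2 ≤ 4 * rr K * S := by nlinarith
        have e2 : (2 : ℝ) ^ (S * rr K + 7 + 2 * rr K) * (2 ^ S * 4) ≤ 2 ^ (4 * rr K * S) := by
          calc (2 : ℝ) ^ (S * rr K + 7 + 2 * rr K) * (2 ^ S * 4) =
                2 ^ (S * rr K + 7 + 2 * rr K + S + 2) := by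
                rw [pow_add _ (S * rr K + 7 + 2 * rr K + S), pow_add _ (S * rr K + 7 + 2 * rr K)]
                ring
            _ ≤ _ := pow_le_pow_right₀ (by norm_num) e1
        rw [one_div_pow, one_div_pow, div_div, mul_one_div,
          div_le_div_iff₀ (by positivity) (by positivity), one_mul]
        exact e2

lemma eps_coeff {K : ℕ} (hK : 1 ≤ K) :
    2 ^ 31 * (lam K : ℝ) / th K ^ 4 ≤ 2 ^ 43 * (rr K : ℝ) ^ 4 := by
  have hr := rr_pos hK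
  have hr0 : (0 : ℝ) < rr K := by exact_mod_cast hr
  have hK0 : (0 : ℝ) < K := by exact_mod_cast hK
  have hK1 : (1 : ℝ) ≤ K := by exact_mod_cast hK
  have hth := th_pos hK
  rw [div_le_iff₀ (by positivity), th_eq hK]
  have hlam : (lam K : ℝ) = 4096 * (K : ℝ) ^ 2 := by unfold lam; push_cast; ring
  rw [hlam]
  have e1 : (2 : ℝ) ^ 43 * (rr K : ℝ) ^ 4 * ((K : ℝ) ^ 2 / rr K) ^ 4 = 2 ^ 43 * (K : ℝ) ^ 8 := by
    field_simp
  rw [e1]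
  have e2 : (K : ℝ) ^ 2 ≤ (K : ℝ) ^ 8 := pow_le_pow_right₀ hK1 (by norm_num)
  nlinarith

/-- the bound for `rr` -/
lemma rr_bound (k : ℕ) (hk : 1 ≤ k) : 2 ^ 23 * rr (4 * k + 1) ^ 2 ≤ (1024 * k) ^ (112 * k) := by
  have hL : ∀ K, LL K = 2 ^ 30 * K ^ 5 := by
    intro K
    unfold LL lam
    ring
  have hr : ∀ K, rr K = 2 ^ 30 * K ^ 6 * (2 ^ 68 * K ^ 10) ^ K := by
    intro K
    unfold rr
    rw [hL]
    have : 256 * (2 ^ 30 * K ^ 5) ^ 2 = 2 ^ 68 * K ^ 10 := by ring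
    rw [this]
    ring
  have hK : 4 * k + 1 ≤ 2 ^ 3 * k := by omega
  have hK5 : 4 * k + 1 ≤ 5 * k := by omega
  have h1 : rr (4 * k + 1) ≤ 2 ^ 30 * (2 ^ 3 * k) ^ 6 * (2 ^ 68 * (2 ^ 3 * k) ^ 10) ^ (5 * k) := by
    rw [hr]
    have e1 : (4 * k + 1) ^ 6 ≤ (2 ^ 3 * k) ^ 6 := Nat.pow_le_pow_left hK 6
    have e2 : (4 * k + 1) ^ 10 ≤ (2 ^ 3 * k) ^ 10 := Nat.pow_le_pow_left hK 10
    have e3 : 1 ≤ 2 ^ 68 * (2 ^ 3 * k) ^ 10 := Nat.mul_pos (by norm_num) (by positivity)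
    calc 2 ^ 30 * (4 * k + 1) ^ 6 * (2 ^ 68 * (4 * k + 1) ^ 10) ^ (4 * k + 1) ≤
          2 ^ 30 * (2 ^ 3 * k) ^ 6 * (2 ^ 68 * (2 ^ 3 * k) ^ 10) ^ (4 * k + 1) :=
          Nat.mul_le_mul (Nat.mul_le_mul_left _ e1)
            (Nat.pow_le_pow_left (Nat.mul_le_mul_left _ e2) _)
      _ ≤ _ := Nat.mul_le_mul_left _ (Nat.pow_le_pow_right e3 hK5)
  calc 2 ^ 23 * rr (4 * k + 1) ^ 2 ≤
        2 ^ 23 * (2 ^ 30 * (2 ^ 3 * k) ^ 6 * (2 ^ 68 * (2 ^ 3 * k) ^ 10) ^ (5 * k)) ^ 2 :=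
        Nat.mul_le_mul_left _ (Nat.pow_le_pow_left h1 2)
    _ = 2 ^ (119 + 980 * k) * k ^ (12 + 100 * k) := by
        have e1 : 2 ^ 68 * (2 ^ 3 * k) ^ 10 = 2 ^ 98 * k ^ 10 := by ring
        rw [e1, mul_pow (2 ^ 98) (k ^ 10) (5 * k), ← pow_mul, ← pow_mul]
        have e2 : 98 * (5 * k) = 490 * k := by ring
        have e3 : 10 * (5 * k) = 50 * k := by ring
        rw [e2, e3]
        have e4 : 119 + 980 * k = 119 + (490 * k) * 2 := by ring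
        have e5 : 12 + 100 * k = 12 + (50 * k) * 2 := by ring
        rw [e4, e5, pow_add, pow_add, pow_mul 2 (490 * k) 2, pow_mul k (50 * k) 2]
        ring
    _ ≤ 2 ^ (1120 * k) * k ^ (112 * k) :=
        Nat.mul_le_mul (Nat.pow_le_pow_right (by norm_num) (by omega))
          (Nat.pow_le_pow_right hk (by omega))
    _ = (1024 * k) ^ (112 * k) := by
        rw [mul_pow]
        congr 1
        rw [show (1024 : ℕ) = 2 ^ 10 by norm_num, ← pow_mul]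
        congr 1
        ring

open Classical in
/-- the general result -/
theorem general (k S m V T : ℕ) (hk : 1 ≤ k) (hS : 1 ≤ S)
    (hm : (1024 * k) ^ (112 * k) * S ≤ m) (hV : 2 * m ≤ V) (hT : T ≤ k * m) (Q : Type) [Fintype Q]
    (hQ : Fintype.card Q ≤ 2 ^ S) {Ω : Type} [Fintype Ω] (w : Ω → ℝ)
    (hw0 : ∀ ω, 0 ≤ w ω) (hw1 : ∑ ω, w ω = 1)
    (P : Ω → Prog (Fin m) (Fin V × Fin V) Q) (φ ε : ℝ) (hφ0 : (1 / 2) ^ S ≤ φ) (hε0 : 0 ≤ ε)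
    (hφ : ∀ E : Fin m → Fin V × Fin V, Simple E → ¬ Triangle E →
      φ ≤ ∑ ω, if (P ω).out ((P ω).st E T) then w ω else 0)
    (hε : ∀ E : Fin m → Fin V × Fin V, Simple E → Triangle E →
      ∑ ω, (if (P ω).out ((P ω).st E T) then w ω else 0) ≤ ε) :
    φ < ((1024 * k) ^ (224 * k) : ℕ) * ε := by
  obtain ⟨X, hX⟩ : ∃ X : ℕ, X = (1024 * k) ^ (224 * k) := ⟨_, rfl⟩
  obtain ⟨Y, hY⟩ : ∃ Y : ℕ, Y = (1024 * k) ^ (112 * k) := ⟨_, rfl⟩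
  rw [← hX]
  rw [← hY] at hm
  have hXY : Y ^ 2 = X := by
    rw [hX, hY, ← pow_mul]
    congr 1
    ring
  obtain ⟨K, hK⟩ : ∃ K : ℕ, K = 4 * k + 1 := ⟨_, rfl⟩
  have hK1 : 1 ≤ K := by omega
  have hr := rr_pos hK1
  have hr64 := rr_ge hK1
  have hrb := rr_bound k hk
  rw [← hK, ← hY] at hrb
  clear hX hY
  obtain ⟨n, hn⟩ : ∃ n : ℕ, n = m / 3 := ⟨_, rfl⟩
  have hm3 : 3 * n ≤ m := by omega
  have hm3' : m ≤ 3 * n + 2 := by omega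
  have hmr : 2 ^ 23 * rr K ^ 2 * S ≤ m := (Nat.mul_le_mul_right _ hrb).trans hm
  have hrS : 1 ≤ rr K ^ 2 * S := Nat.mul_pos (by positivity) hS
  have hn3 : 3 ≤ n := by
    have : 2 ^ 23 * (rr K ^ 2 * S) ≤ m := by rw [← mul_assoc]; exact hmr
    omega
  have hmn : m ≤ 4 * n := by omega
  have hnr : 2 ^ 16 * rr K ^ 2 * S ≤ n := by
    have e1 : 2 ^ 23 * (rr K ^ 2 * S) ≤ 4 * n := by
      rw [← mul_assoc]; exact hmr.trans hmn
    have e2 : 2 ^ 16 * (rr K ^ 2 * S) ≤ n := by omega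
    rw [← mul_assoc] at e2
    exact e2
  have hrn : rr K ≤ n := by
    have e1 : rr K ≤ rr K ^ 2 := Nat.le_self_pow (by norm_num) _
    have e2 : rr K ^ 2 * 1 ≤ rr K ^ 2 * S := Nat.mul_le_mul_left _ hS
    have e3 : 1 * (rr K ^ 2 * S) ≤ 2 ^ 16 * (rr K ^ 2 * S) := Nat.mul_le_mul_right _ (by norm_num)
    rw [← mul_assoc (2 ^ 16)] at e3
    omega
  have hTn : T ≤ (K - 1) * n := by
    have e1 : (K - 1) * n = k * (4 * n) := by
      rw [hK, Nat.add_sub_cancel]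
      ring
    rw [e1]
    exact hT.trans (Nat.mul_le_mul_left _ hmn)
  have hbl := bb_large hK1 hnr
  have hb : 1 ≤ bb K n := by
    have : 1 ≤ 4 * rr K * S := Nat.mul_pos (by omega) hS
    omega
  have hφpos : 0 < φ := lt_of_lt_of_le (by positivity) hφ0
  have h1 := random_edges n m V K T Q hn3 hm3 hm3' hV hK1 hrn hTn hb w hw0 hw1 P φ ε hφ hε hφpos.le hε0
  have hth := th_pos hK1
  have h2 : (Fintype.card Q : ℝ) ^ rr K * (80 / th K ^ 2 * (1 / 2) ^ bb K n) ≤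
      (1 / 2) ^ S / 4 := by
    refine le_trans ?_ (small_main hK1 hS hnr)
    refine mul_le_mul_of_nonneg_right ?_ (by positivity)
    rw [pow_mul]
    exact pow_le_pow_left₀ (Nat.cast_nonneg _) (by exact_mod_cast hQ) _
  have h3 : 2 ^ 31 * (lam K : ℝ) / th K ^ 4 * ε ≤ 2 ^ 43 * (rr K : ℝ) ^ 4 * ε :=
    mul_le_mul_of_nonneg_right (eps_coeff hK1) hε0
  have h4 : φ ≤ 2 ^ 45 * (rr K : ℝ) ^ 4 * ε := by
    have : φ / 2 ≤ φ / 4 + 2 ^ 43 * (rr K : ℝ) ^ 4 * ε := by linarith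
    linarith
  have h5 : 2 * (2 ^ 45 * (rr K : ℝ) ^ 4) ≤ (X : ℝ) := by
    have e1 : 2 * (2 ^ 45 * rr K ^ 4) ≤ X := by
      calc 2 * (2 ^ 45 * rr K ^ 4) = (2 ^ 23 * rr K ^ 2) ^ 2 := by ring
        _ ≤ Y ^ 2 := Nat.pow_le_pow_left hrb 2
        _ = X := hXY
    exact_mod_cast e1
  have hε1 : 0 < ε := by
    by_contra hcon
    have : ε = 0 := le_antisymm (not_lt.1 hcon) hε0
    rw [this, mul_zero] at h4
    linarith
  have hr0 : (0 : ℝ) < rr K := by exact_mod_cast hr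
  calc φ ≤ 2 ^ 45 * (rr K : ℝ) ^ 4 * ε := h4
    _ < 2 * (2 ^ 45 * (rr K : ℝ) ^ 4) * ε := by
        have : 0 < 2 ^ 45 * (rr K : ℝ) ^ 4 * ε := by positivity
        linarith
    _ ≤ _ := mul_le_mul_of_nonneg_right h5 hε0

end Pool.Agent.L7h66.TR
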