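import Pool.Agent.L7h35.TS.Num

/-!
# Project TR: the parameters and their numerical properties

(a variant of `Pool.Agent.L7h35.TS.Num`, by helper35)
-/

set_option autoImplicit false

namespace Pool.Agent.L7h66.TR

open Finset
open Pool.Agent.L7h35.TS

/-- the parameters -/
def lam (k : ℕ) : ℕ := 4096 * k ^ 2
def LL (k : ℕ) : ℕ := 64 * k * lam k ^ 2
def rr (k : ℕ) : ℕ := k * LL k * (256 * LL k ^ 2) ^ k
noncomputable def th (k : ℕ) : ℝ := (k : ℝ) / LL k * (1 / (256 * (LL k : ℝ) ^ 2)) ^ k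
noncomputable def bb (k n : ℕ) : ℕ := ⌊th k * n / (4 * lam k)⌋₊

lemma lam_pos {k : ℕ} (hk : 1 ≤ k) : 1 ≤ lam k := by
  unfold lam
  have : 1 ≤ k ^ 2 := Nat.one_le_pow _ _ hk
  omega

lemma LL_ge {k : ℕ} (hk : 1 ≤ k) : 16 * k ≤ LL k := by
  unfold LL
  have : 1 ≤ lam k ^ 2 := Nat.one_le_pow _ _ (lam_pos hk)
  nlinarith

lemma LL_pos {k : ℕ} (hk : 1 ≤ k) : 1 ≤ LL k := by
  have := LL_ge hk
  omega

lemma rr_pos {k : ℕ} (hk : 1 ≤ k) : 1 ≤ rr k := by
  unfold rr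
  have h1 : 1 ≤ (256 * LL k ^ 2) ^ k := Nat.one_le_pow _ _ (by
    have : 1 ≤ LL k ^ 2 := Nat.one_le_pow _ _ (LL_pos hk)
    omega)
  have h2 : 1 ≤ k * LL k := Nat.mul_pos hk (LL_pos hk)
  exact Nat.mul_pos h2 h1

lemma th_eq {k : ℕ} (hk : 1 ≤ k) : th k = (k : ℝ) ^ 2 / rr k := by
  have hL : (0 : ℝ) < LL k := by exact_mod_cast LL_pos hk
  have hk0 : (0 : ℝ) < k := by exact_mod_cast hk
  unfold th rr
  push_cast
  rw [one_div, inv_pow]
  field_simp

lemma th_pos {k : ℕ} (hk : 1 ≤ k) : 0 < th k := by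
  rw [th_eq hk]
  have h1 : (0 : ℝ) < rr k := by exact_mod_cast rr_pos hk
  have hk0 : (0 : ℝ) < k := by exact_mod_cast hk
  positivity

lemma th_le_one {k : ℕ} (hk : 1 ≤ k) : th k ≤ 1 := by
  have hL : (1 : ℝ) ≤ LL k := by exact_mod_cast LL_pos hk
  have hLk : (16 : ℝ) * k ≤ LL k := by exact_mod_cast LL_ge hk
  have hk0 : (0 : ℝ) < k := by exact_mod_cast hk
  unfold th
  have h1 : (k : ℝ) / LL k ≤ 1 := by
    rw [div_le_one (by linarith)]
    linarith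
  have h2 : (1 / (256 * (LL k : ℝ) ^ 2)) ^ k ≤ 1 := by
    apply pow_le_one₀ (by positivity)
    rw [div_le_one (by positivity)]
    nlinarith
  have h3 : 0 ≤ (1 / (256 * (LL k : ℝ) ^ 2)) ^ k := by positivity
  calc (k : ℝ) / LL k * (1 / (256 * (LL k : ℝ) ^ 2)) ^ k ≤ 1 * 1 :=
        mul_le_mul h1 h2 h3 (by norm_num)
    _ = 1 := by norm_num

/-- `(27/26)^{4096} ≥ 2^{222}` -/
theorem base_pow : (2 : ℝ) ^ 222 ≤ (27 / 26) ^ 4096 := by
  have h2 : (167 / 50 : ℝ) ≤ ((27 / 26) ^ 32) := by norm_num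
  have h3 : (2 : ℝ) ^ 222 ≤ ((167 / 50)) ^ 128 := by norm_num
  calc (2 : ℝ) ^ 222 ≤ (167 / 50) ^ 128 := h3
    _ ≤ ((27 / 26) ^ 32) ^ 128 := pow_le_pow_left₀ (by norm_num) h2 _
    _ = (27 / 26) ^ 4096 := by rw [← pow_mul]

theorem base_pow_lam (k : ℕ) : (2 : ℝ) ^ (222 * k ^ 2) ≤ (27 / 26) ^ (lam k) := by
  unfold lam
  rw [pow_mul, pow_mul]
  exact pow_le_pow_left₀ (by positivity) base_pow _

theorem num_one (k : ℕ) (hk : 1 ≤ k) :
    64 * (lam k : ℝ) ≤ th k * (27 / 26) ^ (lam k) := by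
  have hk0 : (0 : ℝ) < k := by exact_mod_cast hk
  have hlam : (lam k : ℝ) = 4096 * (k : ℝ) ^ 2 := by unfold lam; push_cast; ring
  have hL : (LL k : ℝ) = 64 * k * (lam k : ℝ) ^ 2 := by unfold LL; push_cast; ring
  have hk2 : (k : ℝ) ≤ 2 ^ (k - 1) := by exact_mod_cast k_le_two_pow k hk
  have hlampos : (0 : ℝ) < lam k := by rw [hlam]; positivity
  have hLpos : (0 : ℝ) < LL k := by rw [hL]; positivity
  have hth : th k = (k : ℝ) / LL k / (256 * (LL k : ℝ) ^ 2) ^ k := by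
    unfold th
    rw [one_div, inv_pow]; rfl
  rw [hth, div_mul_eq_mul_div, le_div_iff₀ (by positivity), div_mul_eq_mul_div,
    le_div_iff₀ hLpos]
  have h256 : 256 * (LL k : ℝ) ^ 2 = 2 ^ 68 * (k : ℝ) ^ 10 := by
    rw [hL, hlam]; ring
  have e1 : 64 * (lam k : ℝ) * (256 * (LL k : ℝ) ^ 2) ^ k * LL k =
      2 ^ 48 * (k : ℝ) ^ 6 * (2 ^ 68 * (k : ℝ) ^ 10) ^ k * k := by
    rw [h256, hL, hlam]; ring
  rw [e1, mul_comm (k : ℝ) ((27 / 26) ^ lam k)]
  apply mul_le_mul_of_nonneg_right _ hk0.le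
  refine le_trans ?_ (base_pow_lam k)
  have b1 : (k : ℝ) ^ 6 ≤ 2 ^ (6 * (k - 1)) := by
    calc (k : ℝ) ^ 6 ≤ (2 ^ (k - 1)) ^ 6 := pow_le_pow_left₀ hk0.le hk2 6
      _ = 2 ^ (6 * (k - 1)) := by rw [← pow_mul, mul_comm]
  have b2 : (k : ℝ) ^ 10 ≤ 2 ^ (10 * (k - 1)) := by
    calc (k : ℝ) ^ 10 ≤ (2 ^ (k - 1)) ^ 10 := pow_le_pow_left₀ hk0.le hk2 10
      _ = 2 ^ (10 * (k - 1)) := by rw [← pow_mul, mul_comm]
  calc 2 ^ 48 * (k : ℝ) ^ 6 * (2 ^ 68 * (k : ℝ) ^ 10) ^ k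
      ≤ 2 ^ 48 * 2 ^ (6 * (k - 1)) * (2 ^ 68 * 2 ^ (10 * (k - 1))) ^ k := by gcongr
    _ = 2 ^ (48 + 6 * (k - 1) + (68 + 10 * (k - 1)) * k) := by
        rw [← pow_add, ← pow_add, ← pow_mul, ← pow_add]
    _ ≤ 2 ^ (222 * k ^ 2) := by
        apply pow_le_pow_right₀ (by norm_num)
        obtain ⟨j, rfl⟩ : ∃ j, k = j + 1 := ⟨k - 1, by omega⟩
        simp only [Nat.add_sub_cancel]
        nlinarith

/-- `b` is at least half of the number before rounding -/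
theorem bb_ge {k n : ℕ} (hk : 1 ≤ k) (hb : 1 ≤ bb k n) : th k * n ≤ 8 * lam k * bb k n := by
  have hlampos : (0 : ℝ) < lam k := by exact_mod_cast lam_pos hk
  have h1 := Nat.lt_floor_add_one (th k * n / (4 * (lam k : ℝ)))
  have h2 : (bb k n : ℝ) = (⌊th k * n / (4 * (lam k : ℝ))⌋₊ : ℝ) := rfl
  have h3 : (1 : ℝ) ≤ bb k n := by exact_mod_cast hb
  rw [← h2] at h1
  have hy : th k * n / (4 * lam k) < 2 * bb k n := by linarith
  rw [div_lt_iff₀ (by positivity)] at hy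
  nlinarith

theorem num (k n : ℕ) (hk : 1 ≤ k) (hb : 1 ≤ bb k n) :
    (26 / 27 : ℝ) ^ (lam k * bb k n) * (n.choose (bb k n)) ≤ (1 / 2) ^ bb k n ∧
    (1 / 5 : ℝ) ^ bb k n * ((lam k * bb k n + bb k n / lam k).choose (lam k * bb k n)) ≤
      (1 / 2) ^ bb k n := by
  have hk0 : (0 : ℝ) < k := by exact_mod_cast hk
  have hlam : (lam k : ℝ) = 4096 * (k : ℝ) ^ 2 := by unfold lam; push_cast; ring
  have hlampos : (0 : ℝ) < lam k := by rw [hlam]; positivity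
  have hlamN : 4096 ≤ lam k := by unfold lam; nlinarith
  have hy2 := bb_ge hk hb
  set b := bb k n with hbdef
  have hbpos : (0 : ℝ) < b := by exact_mod_cast hb
  have hth : 0 < th k := th_pos hk
  constructor
  · have hn0 : (0 : ℝ) < n := by
      rcases Nat.eq_zero_or_pos n with h | h
      · exfalso
        rw [hbdef] at hb
        unfold bb at hb
        rw [h] at hb
        simp at hb
      · exact_mod_cast h
    have h1 := choose_mul_pow_le n b (b / n) (by positivity)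
    have h2 : (b : ℝ) / n * n = b := by field_simp
    rw [h2] at h1
    have he : Real.exp b ≤ 4 ^ b := by
      have : Real.exp (b : ℝ) = (Real.exp 1) ^ b := by
        rw [← Real.exp_nat_mul]; ring_nf
      rw [this]
      apply pow_le_pow_left₀ (Real.exp_nonneg _)
      have := Real.exp_one_lt_d9
      linarith
    have h3 : (n.choose b : ℝ) * (b / n) ^ b ≤ 4 ^ b := h1.trans he
    have h4 : (26 / 27 : ℝ) ^ (lam k) * 8 ≤ b / n := by
      have h5 := num_one k hk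
      rw [le_div_iff₀ hn0]
      have h6 : (26 / 27 : ℝ) ^ (lam k) * (27 / 26) ^ (lam k) = 1 := by
        rw [← mul_pow]; norm_num
      have h7 : 0 < (26 / 27 : ℝ) ^ (lam k) := by positivity
      have h8 : (26 / 27 : ℝ) ^ (lam k) * (64 * (lam k : ℝ)) ≤ th k := by
        calc (26 / 27 : ℝ) ^ (lam k) * (64 * (lam k : ℝ))
            ≤ (26 / 27 : ℝ) ^ (lam k) * (th k * (27 / 26) ^ (lam k)) := by gcongr
          _ = th k * ((26 / 27 : ℝ) ^ (lam k) * (27 / 26) ^ (lam k)) := by ring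
          _ = th k := by rw [h6, mul_one]
      have h9 : (26 / 27 : ℝ) ^ (lam k) * (64 * (lam k : ℝ)) * n ≤ 8 * lam k * b := by
        have := mul_le_mul_of_nonneg_right h8 hn0.le
        linarith
      have h10 : (26 / 27 : ℝ) ^ (lam k) * 8 * n * (8 * lam k) ≤ b * (8 * lam k) := by
        linarith
      exact le_of_mul_le_mul_right h10 (by positivity)
    have hc0 : (0 : ℝ) ≤ (n.choose b : ℝ) := by positivity
    have h11 : ((26 / 27 : ℝ) ^ (lam k) * 8) ^ b * (n.choose b) ≤ 4 ^ b := by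
      calc ((26 / 27 : ℝ) ^ (lam k) * 8) ^ b * (n.choose b)
          ≤ (b / n) ^ b * (n.choose b) := by gcongr
        _ ≤ 4 ^ b := by rw [mul_comm]; exact h3
    rw [mul_pow, ← pow_mul] at h11
    have h12 : (8 : ℝ) ^ b * (1 / 2) ^ b = 4 ^ b := by rw [← mul_pow]; norm_num
    have h13 : (0 : ℝ) < 8 ^ b := by positivity
    apply le_of_mul_le_mul_left _ h13
    calc (8 : ℝ) ^ b * ((26 / 27) ^ (lam k * b) * (n.choose b))
        = (26 / 27) ^ (lam k * b) * 8 ^ b * (n.choose b) := by ring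
      _ ≤ 4 ^ b := h11
      _ = 8 ^ b * (1 / 2) ^ b := h12.symm
  · set d := b / lam k with hd
    have hdl : d * lam k ≤ b := Nat.div_mul_le_self b (lam k)
    have hsym : (lam k * b + d).choose (lam k * b) = (lam k * b + d).choose d := by
      rw [← Nat.choose_symm_add]
    rw [hsym]
    have h1 := choose_mul_pow_le (lam k * b + d) d (1 / (lam k : ℝ) ^ 2) (by positivity)
    have hdR : (d : ℝ) * lam k ≤ b := by exact_mod_cast hdl
    have hl1 : (4096 : ℝ) ≤ lam k := by exact_mod_cast hlamN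
    have h2 : 1 / (lam k : ℝ) ^ 2 * ((lam k * b + d : ℕ) : ℝ) ≤ b * (1 / 8) := by
      push_cast
      rw [div_mul_eq_mul_div, div_le_iff₀ (by positivity), one_mul]
      have h3 : (d : ℝ) ≤ b := by nlinarith
      have h4 : (lam k : ℝ) + 1 ≤ 1 / 8 * (lam k : ℝ) ^ 2 := by nlinarith
      have h5 := mul_le_mul_of_nonneg_left h4 hbpos.le
      linarith
    have h3 : Real.exp (1 / (lam k : ℝ) ^ 2 * ((lam k * b + d : ℕ) : ℝ)) ≤ (5 / 4) ^ b := by
      refine (Real.exp_le_exp.2 h2).trans ?_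
      rw [Real.exp_nat_mul]
      apply pow_le_pow_left₀ (Real.exp_nonneg _)
      by_contra hcon
      push Not at hcon
      have h4 : Real.exp (1 / 8) ^ 8 = Real.exp 1 := by
        rw [← Real.exp_nat_mul]; norm_num
      have h6 := Real.exp_one_lt_d9
      have h5 : (5 / 4 : ℝ) ^ 8 < Real.exp (1 / 8) ^ 8 :=
        pow_lt_pow_left₀ hcon (by norm_num) (by norm_num)
      rw [h4] at h5
      norm_num at h5 h6
      linarith
    have h6 : ((lam k : ℝ) ^ 2) ^ d ≤ 2 ^ b := by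
      obtain ⟨μ, hμ⟩ : ∃ μ, lam k = 2 * μ := ⟨2048 * k ^ 2, by unfold lam; ring⟩
      have hμ1 : 1 ≤ μ := by omega
      have h7 : μ ≤ 2 ^ (μ - 1) := k_le_two_pow μ hμ1
      have h8 : lam k ≤ 2 ^ μ := by
        rw [hμ]
        calc 2 * μ ≤ 2 * 2 ^ (μ - 1) := Nat.mul_le_mul_left _ h7
          _ = 2 ^ μ := by rw [← pow_succ']; congr 1; omega
      have h9 : (lam k) ^ 2 ≤ 2 ^ (lam k) := by
        calc (lam k) ^ 2 ≤ (2 ^ μ) ^ 2 := Nat.pow_le_pow_left h8 2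
          _ = 2 ^ (lam k) := by rw [← pow_mul, hμ, mul_comm]
      have h10 : ((lam k) ^ 2) ^ d ≤ 2 ^ b := by
        calc ((lam k) ^ 2) ^ d ≤ (2 ^ (lam k)) ^ d := Nat.pow_le_pow_left h9 d
          _ = 2 ^ (lam k * d) := by rw [← pow_mul]
          _ ≤ 2 ^ b := Nat.pow_le_pow_right (by norm_num) (by rw [mul_comm]; exact hdl)
      exact_mod_cast h10
    have h7 : ((lam k * b + d).choose d : ℝ) ≤ (5 / 2) ^ b := by
      have h8 : ((lam k * b + d).choose d : ℝ) =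
          ((lam k * b + d).choose d : ℝ) * (1 / (lam k : ℝ) ^ 2) ^ d * ((lam k : ℝ) ^ 2) ^ d := by
        rw [mul_assoc, ← mul_pow, one_div, inv_mul_cancel₀ (by positivity), one_pow, mul_one]
      rw [h8]
      calc ((lam k * b + d).choose d : ℝ) * (1 / (lam k : ℝ) ^ 2) ^ d * ((lam k : ℝ) ^ 2) ^ d
          ≤ (5 / 4) ^ b * 2 ^ b := by
            apply mul_le_mul (h1.trans h3) h6 (by positivity) (by positivity)
        _ = (5 / 2) ^ b := by rw [← mul_pow]; norm_num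
    calc (1 / 5 : ℝ) ^ b * ((lam k * b + d).choose d : ℝ) ≤ (1 / 5) ^ b * (5 / 2) ^ b := by gcongr
      _ = (1 / 2) ^ b := by rw [← mul_pow]; norm_num

end Pool.Agent.L7h66.TR
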