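import Pool.Agent.L7h66.TR.Count
import Pool.Agent.L7h66.TR.Num
import Pool.Agent.L7h66.TR.Forest
import Pool.Agent.L7h66.TS.Main
import Pool.Agent.L7h65.TS.Col
import Pool.Agent.L7h65.TS.Win

/-! # Project TR: the main step, for programs with errors -/

set_option autoImplicit false

namespace Pool.Agent.L7h66.TR

open Finset
open Pool.Agent.L7h66.TS (Prog Forest firsts from' side core rl rl' sum_rl pairs_le side_cases
  firsts_card firsts_card_le firsts_subset)

/-! ## windows which start at a multiple of `a` -/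

lemma grid {n a e s s' : ℕ} {X U : Finset (Fin n)} (ha : 1 ≤ a) (hXU : X ⊆ U) (hs : s ≤ s')
    (hs' : s' ≤ s + a) (h1 : 2 * a ≤ (from' s X).card)
    (h2 : firsts (2 * a) (from' s X) ⊆ firsts (2 * a + e) (from' s U)) :
    a ≤ (from' s' X).card ∧ firsts a (from' s' X) ⊆ firsts (a + e) (from' s' U) := by
  -- the elements between `s` and `s'`
  have hbet : ∀ Y : Finset (Fin n), (Y.filter (fun i : Fin n => s ≤ (i : ℕ) ∧ (i : ℕ) < s')).card ≤ a := by
    intro Y
    have e1 : (Y.filter (fun i : Fin n => s ≤ (i : ℕ) ∧ (i : ℕ) < s')).card ≤ (Finset.Ico s s').card := by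
      apply card_le_card_of_injOn (fun i : Fin n => (i : ℕ))
      · intro i hi
        rw [mem_coe, mem_filter] at hi
        rw [mem_coe, mem_Ico]
        exact hi.2
      · intro i _ j _ h
        exact Fin.ext h
    rw [Nat.card_Ico] at e1
    omega
  have hX1 : (from' s X).card ≤ a + (from' s' X).card := by
    have e1 : from' s X ⊆ (X.filter (fun i : Fin n => s ≤ (i : ℕ) ∧ (i : ℕ) < s')) ∪ from' s' X := by
      intro i hi
      rw [from', mem_filter] at hi
      rw [mem_union, mem_filter, from', mem_filter]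
      by_cases hc : (i : ℕ) < s'
      · exact Or.inl ⟨hi.1, hi.2, hc⟩
      · exact Or.inr ⟨hi.1, not_lt.1 hc⟩
    have e2 := (card_le_card e1).trans (card_union_le _ _)
    have e3 := hbet X
    omega
  refine ⟨by omega, ?_⟩
  -- the last of the first `2 a` elements
  have hcard := firsts_card h1
  have hne : (firsts (2 * a) (from' s X)).Nonempty := card_pos.1 (by omega)
  set j := (firsts (2 * a) (from' s X)).max' hne with hj
  have hjm : j ∈ firsts (2 * a) (from' s X) := max'_mem _ _
  have hj1 : 2 * a - 1 ≤ ((from' s X).filter (· < j)).card := by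
    have e1 : (firsts (2 * a) (from' s X)).erase j ⊆ (from' s X).filter (· < j) := by
      intro i hi
      rw [mem_erase] at hi
      rw [mem_filter]
      exact ⟨firsts_subset _ _ hi.2, lt_of_le_of_ne (le_max' _ _ hi.2) hi.1⟩
    have e2 := card_le_card e1
    rw [card_erase_of_mem hjm, hcard] at e2
    exact e2
  have hj2 : ((from' s U).filter (· < j)).card < 2 * a + e := (mem_filter.1 (h2 hjm)).2
  have hj3 : ((from' s (U \ X)).filter (· < j)).card ≤ e := by
    have e1 : ((from' s (U \ X)).filter (· < j)).card + ((from' s X).filter (· < j)).card ≤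
        ((from' s U).filter (· < j)).card := by
      rw [← card_union_of_disjoint]
      · apply card_le_card
        intro i hi
        simp only [from', mem_union, mem_filter, mem_sdiff] at hi ⊢
        rcases hi with h | h
        · exact ⟨⟨h.1.1.1, h.1.2⟩, h.2⟩
        · exact ⟨⟨hXU h.1.1, h.1.2⟩, h.2⟩
      · rw [Finset.disjoint_left]
        intro i hi hi'
        simp only [from', mem_filter, mem_sdiff] at hi hi'
        exact hi.1.1.2 hi'.1.1
    omega
  intro i hi
  rw [firsts, mem_filter] at hi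
  obtain ⟨hi1, hi2⟩ := hi
  rw [from', mem_filter] at hi1
  -- `i` is among the first `2 a` elements from `s` on
  have hi3 : i ∈ firsts (2 * a) (from' s X) := by
    rw [firsts, mem_filter]
    refine ⟨by rw [from', mem_filter]; exact ⟨hi1.1, hs.trans hi1.2⟩, ?_⟩
    have e1 : (from' s X).filter (· < i) ⊆
        (X.filter (fun i : Fin n => s ≤ (i : ℕ) ∧ (i : ℕ) < s')) ∪ (from' s' X).filter (· < i) := by
      intro x hx
      simp only [from', mem_filter, mem_union] at hx ⊢
      by_cases hc : (x : ℕ) < s'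
      · exact Or.inl ⟨hx.1.1, hx.1.2, hc⟩
      · exact Or.inr ⟨⟨hx.1.1, not_lt.1 hc⟩, hx.2⟩
    have e2 := (card_le_card e1).trans (card_union_le _ _)
    have e3 := hbet X
    omega
  have hij : i ≤ j := le_max' _ _ hi3
  rw [firsts, mem_filter]
  refine ⟨by rw [from', mem_filter]; exact ⟨hXU hi1.1, hi1.2⟩, ?_⟩
  have e1 : (from' s' U).filter (· < i) ⊆
      (from' s' X).filter (· < i) ∪ (from' s (U \ X)).filter (· < j) := by
    intro x hx
    simp only [from', mem_filter, mem_union, mem_sdiff] at hx ⊢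
    by_cases hc : x ∈ X
    · exact Or.inl ⟨⟨hc, hx.1.2⟩, hx.2⟩
    · exact Or.inr ⟨⟨⟨hx.1.1, hc⟩, hs.trans hx.1.2⟩, lt_of_lt_of_le hx.2 hij⟩
  have e2 := (card_le_card e1).trans (card_union_le _ _)
  omega

/-! ## one forest -/

theorem forest_bound2 (n k h : ℕ) (D : Type) [Fintype D]
    [DecidableEq D] (Φ : Forest (Fin n ⊕ Fin n) D (rr k)) (Val : (Fin n → D) → Prop) (hk : 1 ≤ k)
    (hn : 1 ≤ n) (hb : 1 ≤ bb k n) (hh : ∀ j z, (Φ.rd j z).card ≤ h) (hrh : rr k * h ≤ k * n)
    (H G : Finset (Fin n ⊕ Fin n → D))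
    (hH : ∀ z : Fin n ⊕ Fin n → D, (∀ j, Φ.ac j z) → Val (fun i => z (Sum.inr i)) → z ∈ H)
    (hG : ∀ z ∈ G, (∀ j, Φ.ac j z) ∧ Val (fun i => z (Sum.inr i))) :
    (G.card : ℝ) ≤ 80 / th k ^ 2 * (1 / 2) ^ bb k n * (Fintype.card D : ℝ) ^ (2 * n) +
      2 ^ 31 * lam k / th k ^ 4 * (Fintype.card D / n ^ 2) * ((∑ z ∈ H, coll z : ℕ) : ℝ) := by
  classical
  have hθ := th_pos hk
  have hθ1 := th_le_one hk
  have hr := rr_pos hk
  have hr' : (0 : ℝ) < rr k := by exact_mod_cast hr
  have hL := LL_pos hk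
  have hL' : (0 : ℝ) < LL k := by exact_mod_cast hL
  have hk0 : (0 : ℝ) < k := by exact_mod_cast hk
  have hn0 : (0 : ℝ) < n := by exact_mod_cast hn
  have hlam := lam_pos hk
  have hlam' : (0 : ℝ) < lam k := by exact_mod_cast hlam
  have hlam1 : (1 : ℝ) ≤ lam k := by exact_mod_cast hlam
  set good : (Fin n ⊕ Fin n → D) → (Fin (rr k) → Fin (4 * LL k)) → Prop := fun z c =>
    th k * n / 2 ≤ ((core (LL k) (rl' Φ z) c {2}).card : ℝ) ∧
      th k * n / 2 ≤ ((core (LL k) (rl Φ z) c {1}).card : ℝ) ∧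
      ((core (LL k) (rl Φ z) c {1, 2} \ core (LL k) (rl Φ z) c {1}).card : ℝ) ≤
        16 * k / LL k * ((core (LL k) (rl Φ z) c {1}).card : ℝ) with hgood
  have hcolor : ∀ z, th k / 2 * ((4 * LL k : ℕ) : ℝ) ^ rr k ≤
      (((univ : Finset (Fin (rr k) → Fin (4 * LL k))).filter (good z)).card : ℝ) := by
    intro z
    obtain ⟨s1, s2⟩ := sum_rl Φ z (fun j => hh j z)
    have h3 := pairs_le Φ z (fun j => hh j z)
    have h4 := Pool.Agent.L7h65.TS.s_COLOR n k (LL k) (rr k) (rl Φ z) (rl' Φ z) hn hk (LL_ge hk)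
      (s1.trans hrh) (s2.trans hrh) (th k) rfl ?_
    · convert h4
    · have h5 : (4 : ℝ) * (((univ : Finset (Fin n × Fin n)).filter
          (fun p => ¬ Disjoint (rl Φ z p.1) (rl' Φ z p.2))).card : ℝ) ≤ rr k * (h : ℝ) ^ 2 := by
        exact_mod_cast h3
      refine h5.trans ?_
      rw [th_eq hk, div_mul_eq_mul_div, le_div_iff₀ hr']
      have h6 : (rr k : ℝ) * h ≤ k * n := by exact_mod_cast hrh
      have h7 : (0 : ℝ) ≤ rr k * h := by positivity
      calc (rr k : ℝ) * (h : ℝ) ^ 2 * (rr k : ℝ) = ((rr k : ℝ) * (h : ℝ)) ^ 2 := by ring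
        _ ≤ ((k : ℝ) * (n : ℝ)) ^ 2 := pow_le_pow_left₀ h7 h6 2
        _ = (k : ℝ) ^ 2 * (n : ℝ) ^ 2 := by ring
  -- a colouring which is good for many inputs
  have hex : ∃ c : Fin (rr k) → Fin (4 * LL k),
      th k / 2 * (G.card : ℝ) ≤ ((G.filter (fun z => good z c)).card : ℝ) := by
    by_contra hcon
    push Not at hcon
    have hsw : ∑ z ∈ G, ((univ : Finset (Fin (rr k) → Fin (4 * LL k))).filter (good z)).card =
        ∑ c : Fin (rr k) → Fin (4 * LL k), (G.filter (fun z => good z c)).card := by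
      simp_rw [card_filter]
      exact sum_comm
    have h1 : (G.card : ℝ) * (th k / 2 * ((4 * LL k : ℕ) : ℝ) ^ rr k) ≤
        ((∑ z ∈ G, ((univ : Finset (Fin (rr k) → Fin (4 * LL k))).filter (good z)).card : ℕ) : ℝ) := by
      push_cast
      rw [← nsmul_eq_mul, ← sum_const]
      refine sum_le_sum fun z _ => ?_
      have := hcolor z
      push_cast at this
      exact this
    have h2 : ((∑ c : Fin (rr k) → Fin (4 * LL k), (G.filter (fun z => good z c)).card : ℕ) : ℝ) <
        ((4 * LL k : ℕ) : ℝ) ^ rr k * (th k / 2 * (G.card : ℝ)) := by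
      rw [Nat.cast_sum]
      have hcardc : ((4 * LL k : ℕ) : ℝ) ^ rr k =
          ((univ : Finset (Fin (rr k) → Fin (4 * LL k))).card : ℝ) := by
        rw [card_univ, Fintype.card_fun, Fintype.card_fin, Fintype.card_fin]
        push_cast
        rfl
      rw [hcardc, ← nsmul_eq_mul, ← sum_const]
      refine sum_lt_sum_of_nonempty ?_ fun c _ => hcon c
      refine ⟨fun _ => ⟨0, by omega⟩, mem_univ _⟩
    rw [hsw] at h1
    have := h1.trans_lt h2
    nlinarith
  obtain ⟨c, hc⟩ := hex
  have hbge := bb_ge hk hb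
  set b := bb k n with hbdef
  set a := lam k * b with ha
  set e := b / lam k with he
  have hb' : (b : ℝ) ≤ th k * n / (4 * lam k) := Nat.floor_le (by positivity)
  have ha1 : 1 ≤ a := Nat.mul_pos hlam hb
  have ha' : (a : ℝ) ≤ th k * n / 4 := by
    rw [ha]
    push_cast
    calc (lam k : ℝ) * b ≤ lam k * (th k * n / (4 * lam k)) :=
          mul_le_mul_of_nonneg_left hb' hlam'.le
      _ = th k * n / 4 := by field_simp
  have hb2 : (b : ℝ) ≤ th k * n / 2 := by
    refine hb'.trans ?_
    rw [div_le_div_iff₀ (by positivity) (by norm_num)]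
    have : 0 < th k * n := by positivity
    nlinarith
  have hage : th k * n ≤ 8 * a := by
    rw [ha]; push_cast; linarith
  set col : Fin (rr k) → ℕ := fun j => side (LL k) (c j) with hcold
  set Q : ℕ → (Fin n ⊕ Fin n → D) → Prop := fun s z =>
      (∀ j, Φ.ac j z) ∧ Val (fun i => z (Sum.inr i)) ∧
        b ≤ (univ.filter (fun i : Fin n => ∀ j, Sum.inr i ∈ Φ.rd j z → col j = 2)).card ∧
        a ≤ (from' s (univ.filter (fun i : Fin n => ∀ j, Sum.inl i ∈ Φ.rd j z → col j = 1))).card ∧
        firsts a (from' s (univ.filter (fun i : Fin n => ∀ j, Sum.inl i ∈ Φ.rd j z → col j = 1))) ⊆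
          firsts (a + e) (from' s (univ.filter
            (fun i : Fin n => ∀ j, Sum.inl i ∈ Φ.rd j z → col j ≠ 0))) with hQ
  -- the window
  have hwin : ∀ z ∈ G.filter (fun z => good z c), ∃ l ∈ range (n / a + 2), Q (l * a) z := by
    intro z hz
    rw [mem_filter] at hz
    obtain ⟨hzG, hg1, hg2, hg3⟩ := hz
    have eX : core (LL k) (rl Φ z) c {1} =
        univ.filter (fun i : Fin n => ∀ j, Sum.inl i ∈ Φ.rd j z → col j = 1) := by
      ext i
      simp [core, rl, hcold]
    have eA2 : core (LL k) (rl' Φ z) c {2} =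
        univ.filter (fun i : Fin n => ∀ j, Sum.inr i ∈ Φ.rd j z → col j = 2) := by
      ext i
      simp [core, rl', hcold]
    have eU : core (LL k) (rl Φ z) c {1, 2} =
        univ.filter (fun i : Fin n => ∀ j, Sum.inl i ∈ Φ.rd j z → col j ≠ 0) := by
      ext i
      simp only [core, rl, hcold, mem_filter, mem_univ, true_and, mem_insert, mem_singleton]
      refine forall_congr' fun j => imp_congr_right fun _ => ?_
      have := side_cases (LL k) (c j)
      omega
    set X := core (LL k) (rl Φ z) c {1} with hX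
    set U := core (LL k) (rl Φ z) c {1, 2} with hU
    have hXU : X ⊆ U := by
      intro i hi
      simp only [hX, hU, core, mem_filter, mem_univ, true_and] at hi ⊢
      intro j hj
      have := hi j hj
      rw [mem_singleton] at this
      rw [this]
      simp
    have haX : (2 * a : ℝ) ≤ X.card := by linarith
    have haX' : 2 * a ≤ X.card := by exact_mod_cast haX
    have ha2 : 0 < 2 * a := by omega
    have hg : 1 ≤ X.card / (2 * a) := (Nat.one_le_div_iff ha2).2 haX'
    have hga : X.card / (2 * a) * (2 * a) ≤ X.card := Nat.div_mul_le_self _ _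
    have hlt : X.card < (X.card / (2 * a) + 1) * (2 * a) := by
      have := Nat.lt_div_mul_add (a := X.card) ha2
      linarith
    have hdiff : (U \ X).card < X.card / (2 * a) * (e + 1) := by
      have h1 : (X.card : ℝ) < 4 * ((X.card / (2 * a) : ℕ) : ℝ) * a := by
        have : X.card < 4 * (X.card / (2 * a)) * a := by nlinarith
        exact_mod_cast this
      have h2 : (b : ℝ) < lam k * (e + 1) := by
        have : b < lam k * (e + 1) := by
          rw [he]
          have := Nat.lt_mul_div_succ b hlam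
          exact this
        exact_mod_cast this
      have hg0 : (0 : ℝ) < ((X.card / (2 * a) : ℕ) : ℝ) := by exact_mod_cast hg
      have hLL : (LL k : ℝ) = 64 * k * (lam k : ℝ) ^ 2 := by
        unfold LL
        push_cast
        rfl
      have h3 : ((U \ X).card : ℝ) < ((X.card / (2 * a) : ℕ) : ℝ) * (e + 1) := by
        calc ((U \ X).card : ℝ) ≤ 16 * k / LL k * (X.card : ℝ) := hg3
          _ < 16 * k / LL k * (4 * ((X.card / (2 * a) : ℕ) : ℝ) * a) :=
              mul_lt_mul_of_pos_left h1 (by positivity)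
          _ = ((X.card / (2 * a) : ℕ) : ℝ) * (b / lam k) := by
              rw [hLL, ha]
              push_cast
              field_simp
              ring
          _ ≤ ((X.card / (2 * a) : ℕ) : ℝ) * (e + 1) := by
              refine mul_le_mul_of_nonneg_left ?_ hg0.le
              rw [div_le_iff₀ hlam']
              linarith
      exact_mod_cast h3
    obtain ⟨s, hs, hs1, hs2⟩ :=
      Pool.Agent.L7h65.TS.s_WINDOW n (2 * a) e (X.card / (2 * a)) X U hXU (by omega) hg hga hdiff
    set l := (s + a - 1) / a with hl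
    have hl1 : s ≤ l * a := by
      have := Nat.lt_div_mul_add (a := s + a - 1) ha1
      rw [← hl] at this
      omega
    have hl2 : l * a ≤ s + a := by
      have := Nat.div_mul_le_self (s + a - 1) a
      rw [← hl] at this
      omega
    have hl3 : l < n / a + 2 := by
      rw [hl, Nat.div_lt_iff_lt_mul ha1]
      have := Nat.lt_div_mul_add (a := n) ha1
      rw [add_mul]
      omega
    obtain ⟨t1, t2⟩ := grid ha1 hXU hl1 hl2 hs1 hs2
    refine ⟨l, mem_range.2 hl3, (hG z hzG).1, (hG z hzG).2, ?_, ?_, ?_⟩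
    · have : (b : ℝ) ≤ ((core (LL k) (rl' Φ z) c {2}).card : ℝ) := hb2.trans hg1
      rw [eA2] at this
      exact_mod_cast this
    · rw [← eX]
      exact t1
    · rw [← eX, ← eU]
      exact t2
  -- the sum over the windows
  have hcover : G.filter (fun z => good z c) ⊆ (range (n / a + 2)).biUnion (fun l =>
      (G.filter (fun z => good z c)).filter (Q (l * a))) := by
    intro z hz
    obtain ⟨l, hl, hl1⟩ := hwin z hz
    rw [mem_biUnion]
    exact ⟨l, hl, mem_filter.2 ⟨hz, hl1⟩⟩
  obtain ⟨n1, n2⟩ := num k n hk hb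
  have hab0 : (0 : ℝ) < a * b := by
    have h1 : (0 : ℝ) < a := by exact_mod_cast ha1
    have h2 : (0 : ℝ) < b := by exact_mod_cast hb
    positivity
  set W : ℝ := 4 * (1 / 2) ^ b * (Fintype.card D : ℝ) ^ (2 * n) +
      2 ^ 26 * lam k / th k ^ 2 * (Fintype.card D / n ^ 2) * ((∑ z ∈ H, coll z : ℕ) : ℝ) with hW
  have hW0 : 0 ≤ W := by
    rw [hW]
    have : (0 : ℝ) ≤ ((∑ z ∈ H, coll z : ℕ) : ℝ) := Nat.cast_nonneg _
    positivity
  have hone : ∀ l ∈ range (n / a + 2),
      (((G.filter (fun z => good z c)).filter (Q (l * a))).card : ℝ) ≤ W := by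
    intro l _
    have h1 := count2 n (rr k) a b e (l * a) D Φ col Val ha1 hb H
      ((G.filter (fun z => good z c)).filter (Q (l * a))) hH
      (fun z hz => (mem_filter.1 hz).2)
    have h2 : (((G.filter (fun z => good z c)).filter (Q (l * a))).card : ℝ) ≤
        2 * ((26 / 27) ^ a * (n.choose b) + (1 / 5) ^ b * ((a + e).choose a)) *
        (Fintype.card D : ℝ) ^ (2 * n) +
        2 ^ 20 * Fintype.card D * ((∑ z ∈ H, coll z : ℕ) : ℝ) / (a * b) := by
      rw [← mul_le_mul_iff_right₀ hab0]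
      refine h1.trans (le_of_eq ?_)
      field_simp
    refine h2.trans ?_
    rw [hW]
    refine add_le_add ?_ ?_
    · have : 2 * ((26 / 27 : ℝ) ^ a * (n.choose b) + (1 / 5) ^ b * ((a + e).choose a)) ≤
          4 * (1 / 2) ^ b := by linarith
      exact mul_le_mul_of_nonneg_right this (by positivity)
    · have hC0 : (0 : ℝ) ≤ Fintype.card D * ((∑ z ∈ H, coll z : ℕ) : ℝ) := by positivity
      have h3 : 1 / ((a : ℝ) * b) ≤ 64 * lam k / (th k ^ 2 * n ^ 2) := by
        rw [div_le_div_iff₀ hab0 (by positivity)]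
        have e1 : (th k * n) ^ 2 ≤ (8 * lam k * b) ^ 2 :=
          pow_le_pow_left₀ (by positivity) hbge 2
        have e2 : (64 : ℝ) * lam k * (a * b) = (8 * lam k * b) ^ 2 := by
          rw [ha]; push_cast; ring
        rw [e2]
        linarith
      calc 2 ^ 20 * (Fintype.card D : ℝ) * ((∑ z ∈ H, coll z : ℕ) : ℝ) / (a * b) =
            2 ^ 20 * (Fintype.card D * ((∑ z ∈ H, coll z : ℕ) : ℝ)) * (1 / (a * b)) := by ring
        _ ≤ 2 ^ 20 * (Fintype.card D * ((∑ z ∈ H, coll z : ℕ) : ℝ)) *
            (64 * lam k / (th k ^ 2 * n ^ 2)) := mul_le_mul_of_nonneg_left h3 (by positivity)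
        _ = _ := by
            field_simp
            ring
  have hGc : ((G.filter (fun z => good z c)).card : ℝ) ≤ (10 / th k) * W := by
    have h1 := (card_le_card hcover).trans card_biUnion_le
    have h2 : ((G.filter (fun z => good z c)).card : ℝ) ≤
        ((∑ l ∈ range (n / a + 2),
          ((G.filter (fun z => good z c)).filter (Q (l * a))).card : ℕ) : ℝ) := by
      exact_mod_cast h1
    refine h2.trans ?_
    rw [Nat.cast_sum]
    refine (sum_le_sum hone).trans ?_
    rw [sum_const, card_range, nsmul_eq_mul]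
    refine mul_le_mul_of_nonneg_right ?_ hW0
    push_cast
    have h3 : ((n / a : ℕ) : ℝ) ≤ n / a := Nat.cast_div_le
    have ha0 : (0 : ℝ) < a := by exact_mod_cast ha1
    have h4 : (n : ℝ) / a ≤ 8 / th k := by
      rw [div_le_div_iff₀ ha0 hθ]
      linarith
    have h5 : (2 : ℝ) ≤ 2 / th k := by
      rw [le_div_iff₀ hθ]
      linarith
    have h6 : (10 : ℝ) / th k = 8 / th k + 2 / th k := by ring
    linarith
  have h5 : th k / 2 * (G.card : ℝ) ≤ (10 / th k) * W := hc.trans hGc
  have h6 : (G.card : ℝ) ≤ (10 / th k) * W / (th k / 2) := by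
    rw [le_div_iff₀ (by positivity)]
    linarith
  refine h6.trans ?_
  rw [hW]
  have hC0 : (0 : ℝ) ≤ (Fintype.card D / n ^ 2) * ((∑ z ∈ H, coll z : ℕ) : ℝ) := by positivity
  have h7 : 10 / th k * (4 * (1 / 2) ^ b * (Fintype.card D : ℝ) ^ (2 * n) +
      2 ^ 26 * lam k / th k ^ 2 * (Fintype.card D / n ^ 2) * ((∑ z ∈ H, coll z : ℕ) : ℝ)) /
        (th k / 2) =
      80 / th k ^ 2 * (1 / 2) ^ b * (Fintype.card D : ℝ) ^ (2 * n) +
      20 * 2 ^ 26 * lam k / th k ^ 4 *
        ((Fintype.card D / n ^ 2) * ((∑ z ∈ H, coll z : ℕ) : ℝ)) := by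
    field_simp
    ring
  rw [h7]
  refine add_le_add le_rfl ?_
  rw [mul_assoc (2 ^ 31 * (lam k : ℝ) / th k ^ 4)]
  refine mul_le_mul_of_nonneg_right ?_ hC0
  rw [div_le_div_iff_of_pos_right (by positivity)]
  have : (20 : ℝ) * 2 ^ 26 ≤ 2 ^ 31 := by norm_num
  nlinarith

end Pool.Agent.L7h66.TR
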