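import Pool.Agent.L7h66.TS.Count

/-! # Project TR: rectangles with few collisions -/

set_option autoImplicit false

namespace Pool.Agent.L7h66.TR

open Finset Pool.Agent.L7h66.TS

section
variable {D : Type} [Fintype D] [DecidableEq D]

/-- number of the pairs of equal items of the two lists -/
def coll {n : ℕ} {D : Type} [DecidableEq D] (z : Fin n ⊕ Fin n → D) : ℕ :=
  ((univ : Finset (Fin n × Fin n)).filter (fun p => z (Sum.inl p.1) = z (Sum.inr p.2))).card

/-- number of the items outside `V` -/
def outs {ι : Type} [Fintype ι] (V : Finset D) (x : ι → D) : ℕ := (univ.filter (fun i => x i ∉ V)).card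

lemma few_outside {ι : Type} [Fintype ι] [DecidableEq ι] (X : Finset (ι → D)) (V : Finset D)
    (hι : 1 ≤ Fintype.card ι) (h : 256 * ∑ x ∈ X, outs V x ≤ Fintype.card ι * X.card) :
    (X.card : ℝ) ≤ 2 * (511 / 500 * (V.card + (Fintype.card D - V.card) / 16)) ^ Fintype.card ι := by
  classical
  set a := Fintype.card ι with ha
  set X' := X.filter (fun x => 128 * outs V x ≤ a) with hX'
  have h1 : X.card ≤ 2 * X'.card := by
    have e1 : X'.card + (X.filter (fun x => ¬ 128 * outs V x ≤ a)).card = X.card :=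
      card_filter_add_card_filter_not _
    have e2 : (X.filter (fun x => ¬ 128 * outs V x ≤ a)).card * a ≤ 128 * ∑ x ∈ X, outs V x := by
      rw [mul_sum]
      calc (X.filter (fun x => ¬ 128 * outs V x ≤ a)).card * a =
            ∑ _x ∈ X.filter (fun x => ¬ 128 * outs V x ≤ a), a := by
            rw [sum_const, smul_eq_mul]
        _ ≤ ∑ x ∈ X.filter (fun x => ¬ 128 * outs V x ≤ a), 128 * outs V x :=
            sum_le_sum fun x hx => (not_le.1 (mem_filter.1 hx).2).le
        _ ≤ ∑ x ∈ X, 128 * outs V x :=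
            sum_le_sum_of_subset_of_nonneg (filter_subset _ _) fun _ _ _ => Nat.zero_le _
    have e3 : a * (2 * (X.filter (fun x => ¬ 128 * outs V x ≤ a)).card) ≤ a * X.card := by
      calc a * (2 * (X.filter (fun x => ¬ 128 * outs V x ≤ a)).card) =
            2 * ((X.filter (fun x => ¬ 128 * outs V x ≤ a)).card * a) := by ring
        _ ≤ 2 * (128 * ∑ x ∈ X, outs V x) := Nat.mul_le_mul_left _ e2
        _ = 256 * ∑ x ∈ X, outs V x := by ring
        _ ≤ _ := h
    have e4 := Nat.le_of_mul_le_mul_left e3 hι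
    omega
  set g : D → ℝ := fun d => 511 / 500 * (if d ∈ V then 1 else 1 / 16) with hg
  have hg0 : ∀ d, 0 ≤ g d := by
    intro d
    simp only [hg]
    split_ifs <;> norm_num
  have h2 : (X'.card : ℝ) ≤ ∑ x ∈ X', ∏ i, g (x i) := by
    rw [← nsmul_one, ← sum_const]
    refine sum_le_sum fun x hx => ?_
    have hx2 := (mem_filter.1 hx).2
    have e1 : ∏ i, g (x i) = (511 / 500) ^ a * (1 / 16) ^ outs V x := by
      simp only [hg]
      rw [prod_mul_distrib, prod_const, card_univ, prod_ite, prod_const_one, one_mul, prod_const]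
      rfl
    rw [e1]
    have e2 : ((511 / 500 : ℝ)) ^ (128 * outs V x) ≤ (511 / 500) ^ a :=
      pow_le_pow_right₀ (by norm_num) hx2
    have e3 : (1 : ℝ) ≤ (511 / 500) ^ (128 * outs V x) * (1 / 16) ^ outs V x := by
      rw [pow_mul, ← mul_pow]
      exact one_le_pow₀ (by norm_num)
    exact e3.trans (mul_le_mul_of_nonneg_right e2 (by positivity))
  have h3 : ∑ x ∈ X', ∏ i, g (x i) ≤ ∑ x : ι → D, ∏ i, g (x i) :=
    sum_le_sum_of_subset_of_nonneg (subset_univ _) fun x _ _ => prod_nonneg fun i _ => hg0 _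
  have h4 : ∑ x : ι → D, ∏ i, g (x i) = (∑ d, g d) ^ a := by
    have := Finset.prod_univ_sum (fun _ : ι => (univ : Finset D)) (fun _ d => g d)
    rw [prod_const, card_univ, Fintype.piFinset_univ] at this
    exact this.symm
  have h5 : ∑ d, g d = 511 / 500 * (V.card + (Fintype.card D - V.card) / 16) := by
    simp only [hg]
    rw [← mul_sum]
    congr 1
    have e1 : ∀ d : D, (if d ∈ V then (1 : ℝ) else 1 / 16) = 1 / 16 + 15 / 16 * (if d ∈ V then 1 else 0) := by
      intro d
      split_ifs <;> norm_num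
    simp_rw [e1]
    rw [sum_add_distrib, ← mul_sum, sum_const, card_univ, nsmul_eq_mul, sum_ite_mem, univ_inter,
      sum_const, nsmul_eq_mul]
    ring
  calc (X.card : ℝ) ≤ 2 * X'.card := by exact_mod_cast h1
    _ ≤ 2 * (∑ d, g d) ^ a := by
        have := h2.trans (h3.trans h4.le)
        linarith
    _ = _ := by rw [h5]

/-- number of occurrences -/
def occ {ι : Type} [Fintype ι] (X : Finset (ι → D)) (d : D) : ℕ :=
  ∑ x ∈ X, (univ.filter (fun i => x i = d)).card

omit [Fintype D] in
lemma sum_occ {ι : Type} [Fintype ι] (X : Finset (ι → D)) (W : Finset D) :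
    ∑ d ∈ W, occ X d = ∑ x ∈ X, (univ.filter (fun i => x i ∈ W)).card := by
  classical
  unfold occ
  rw [sum_comm]
  refine sum_congr rfl fun x _ => ?_
  have h := card_eq_sum_card_fiberwise (s := univ.filter (fun i => x i ∈ W)) (t := W) (f := x)
    (fun i hi => (mem_filter.1 hi).2)
  rw [h]
  refine sum_congr rfl fun d hd => ?_
  congr 1
  ext i
  simp only [mem_filter, mem_univ, true_and]
  constructor
  · intro hi
    exact ⟨by rw [hi]; exact hd, hi⟩
  · exact fun hi => hi.2

/-- the values which occur often -/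
def often {ι : Type} [Fintype ι] (X : Finset (ι → D)) : Finset D :=
  univ.filter (fun d => Fintype.card ι * X.card ≤ 256 * Fintype.card D * occ X d)

lemma often_outs {ι : Type} [Fintype ι] [DecidableEq ι] (X : Finset (ι → D))
    (hD : 1 ≤ Fintype.card D) :
    256 * ∑ x ∈ X, outs (often X) x ≤ Fintype.card ι * X.card := by
  classical
  have e1 : ∑ x ∈ X, outs (often X) x = ∑ d ∈ (often X)ᶜ, occ X d := by
    rw [sum_occ]
    refine sum_congr rfl fun x _ => ?_
    unfold outs
    congr 1
    ext i
    simp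
  rw [e1]
  have e2 : Fintype.card D * (256 * ∑ d ∈ (often X)ᶜ, occ X d) ≤
      Fintype.card D * (Fintype.card ι * X.card) := by
    calc Fintype.card D * (256 * ∑ d ∈ (often X)ᶜ, occ X d) =
          ∑ d ∈ (often X)ᶜ, 256 * Fintype.card D * occ X d := by
          rw [← mul_sum]; ring
      _ ≤ ∑ _d ∈ (often X)ᶜ, Fintype.card ι * X.card := by
          refine sum_le_sum fun d hd => ?_
          rw [mem_compl, often, mem_filter] at hd
          simp only [mem_univ, true_and, not_le] at hd
          exact hd.le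
      _ = (often X)ᶜ.card * (Fintype.card ι * X.card) := by rw [sum_const, smul_eq_mul]
      _ ≤ _ := Nat.mul_le_mul_right _ (card_le_univ _)
  exact Nat.le_of_mul_le_mul_left e2 hD

lemma pow_case {x c N : ℝ} (a : ℕ) (h0 : 0 ≤ 511 / 500 * x) (h : 511 / 500 * x ≤ c * N) :
    2 * (511 / 500 * x) ^ a ≤ 2 * (c ^ a * N ^ a) := by
  rw [← mul_pow]
  exact mul_le_mul_of_nonneg_left (pow_le_pow_left₀ h0 h a) (by norm_num)

/-- three cases -/
lemma cases3 {ι κ : Type} [Fintype ι] [DecidableEq ι] [Fintype κ] [DecidableEq κ]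
    (X : Finset (ι → D)) (Y : Finset (κ → D)) (hι : 1 ≤ Fintype.card ι) (hκ : 1 ≤ Fintype.card κ)
    (hD : 1 ≤ Fintype.card D) :
    ((X.card : ℝ) ≤ 2 * ((26 / 27) ^ Fintype.card ι * (Fintype.card D : ℝ) ^ Fintype.card ι)) ∨
    ((Y.card : ℝ) ≤ 2 * ((1 / 5) ^ Fintype.card κ * (Fintype.card D : ℝ) ^ Fintype.card κ)) ∨
    ((Fintype.card ι : ℝ) * Fintype.card κ * (X.card * Y.card) ≤
      2 ^ 20 * Fintype.card D * ∑ d, (occ X d : ℝ) * occ Y d) := by
  classical
  have hN : (1 : ℝ) ≤ Fintype.card D := by exact_mod_cast hD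
  set N : ℝ := (Fintype.card D : ℝ) with hNdef
  have hX := few_outside X (often X) hι (often_outs X hD)
  have hY := few_outside Y (often Y) hκ (often_outs Y hD)
  rw [← hNdef] at hX hY
  have v1 : ((often X).card : ℝ) ≤ N := by
    rw [hNdef]; exact_mod_cast card_le_univ _
  have v2 : ((often Y).card : ℝ) ≤ N := by
    rw [hNdef]; exact_mod_cast card_le_univ _
  have v3 : (0 : ℝ) ≤ (often X).card := Nat.cast_nonneg _
  have v4 : (0 : ℝ) ≤ (often Y).card := Nat.cast_nonneg _
  by_cases c1 : ((often X).card : ℝ) ≤ 15 / 16 * N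
  · left
    refine hX.trans (pow_case _ ?_ ?_)
    · nlinarith
    · linarith
  by_cases c2 : ((often Y).card : ℝ) ≤ 1 / 8 * N
  · right; left
    refine hY.trans (pow_case _ ?_ ?_)
    · nlinarith
    · linarith
  right; right
  push Not at c1 c2
  have h1 : ((often X).card : ℝ) + (often Y).card ≤ N + ((often X ∩ often Y).card : ℝ) := by
    have := card_union_add_card_inter (often X) (often Y)
    have h2 : (often X ∪ often Y).card ≤ Fintype.card D := card_le_univ _
    have h3 : (often X).card + (often Y).card ≤ Fintype.card D + (often X ∩ often Y).card := by omega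
    rw [hNdef]
    exact_mod_cast h3
  have h2 : N / 16 ≤ ((often X ∩ often Y).card : ℝ) := by linarith
  have h3 : ∑ d, (occ X d : ℝ) * occ Y d ≥
      ∑ _d ∈ often X ∩ often Y, ((Fintype.card ι : ℝ) * X.card / (256 * N)) *
        ((Fintype.card κ : ℝ) * Y.card / (256 * N)) := by
    calc ∑ _d ∈ often X ∩ often Y, ((Fintype.card ι : ℝ) * X.card / (256 * N)) *
        ((Fintype.card κ : ℝ) * Y.card / (256 * N)) ≤
          ∑ d ∈ often X ∩ often Y, (occ X d : ℝ) * occ Y d := by
          refine sum_le_sum fun d hd => ?_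
          rw [mem_inter, often, often, mem_filter, mem_filter] at hd
          have e1 : (Fintype.card ι : ℝ) * X.card / (256 * N) ≤ occ X d := by
            rw [div_le_iff₀ (by positivity)]
            have : ((Fintype.card ι * X.card : ℕ) : ℝ) ≤ ((256 * Fintype.card D * occ X d : ℕ) : ℝ) := by
              exact_mod_cast hd.1.2
            push_cast at this
            rw [← hNdef] at this
            linarith
          have e2 : (Fintype.card κ : ℝ) * Y.card / (256 * N) ≤ occ Y d := by
            rw [div_le_iff₀ (by positivity)]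
            have : ((Fintype.card κ * Y.card : ℕ) : ℝ) ≤ ((256 * Fintype.card D * occ Y d : ℕ) : ℝ) := by
              exact_mod_cast hd.2.2
            push_cast at this
            rw [← hNdef] at this
            linarith
          exact mul_le_mul e1 e2 (by positivity) (by positivity)
      _ ≤ ∑ d, (occ X d : ℝ) * occ Y d :=
          sum_le_sum_of_subset_of_nonneg (subset_univ _) fun _ _ _ => by positivity
  rw [sum_const, nsmul_eq_mul] at h3
  have h4 : N / 16 * (((Fintype.card ι : ℝ) * X.card / (256 * N)) *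
        ((Fintype.card κ : ℝ) * Y.card / (256 * N))) ≤ ∑ d, (occ X d : ℝ) * occ Y d :=
    (mul_le_mul_of_nonneg_right h2 (by positivity)).trans h3
  calc (Fintype.card ι : ℝ) * Fintype.card κ * (X.card * Y.card) =
        2 ^ 20 * N * (N / 16 * (((Fintype.card ι : ℝ) * X.card / (256 * N)) *
        ((Fintype.card κ : ℝ) * Y.card / (256 * N)))) := by
        field_simp
        ring
    _ ≤ 2 ^ 20 * N * ∑ d, (occ X d : ℝ) * occ Y d := mul_le_mul_of_nonneg_left h4 (by positivity)

end

end Pool.Agent.L7h66.TR
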